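import Pool.Agent.R903.MurreDefs

/-!
# Self-dual decompositions and isometries: definitions
-/

open CategoryTheory Pool.Agent.H914 Pool.Agent.R903

universe u v w

namespace Pool.Agent.Run7.h192.Murre

variable {k : Type u} [Field k] {𝒱 : VarClass k} {C : ChowTheory.{u, v} 𝒱}

/-- The correspondence `φ` has degree zero. -/
def IsDegreeZero (C : ChowTheory.{u, v} 𝒱) {X : 𝒱.Obj} (φ : C.CH (X.prod X)) : Prop :=
  φ ∈ C.gr (X.prod X) X.dim

/-- The transpose of a correspondence: the pull-back under the exchange of the factors. -/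
noncomputable def transpose (C : ChowTheory.{u, v} 𝒱) {X : 𝒱.Obj} (γ : C.CH (X.prod X)) :
    C.CH (X.prod X) :=
  C.pull (VarClass.Obj.lift (VarClass.Obj.snd X X) (VarClass.Obj.fst X X)) γ

/-- The class of the graph of a morphism. -/
noncomputable def graphClass (C : ChowTheory.{u, v} 𝒱) {X : 𝒱.Obj} (f : X ⟶ X) :
    C.CH (X.prod X) :=
  C.push (VarClass.Obj.lift (𝟙 X) f) 1

/-- The decomposition `π` is self-dual: the transpose of `π j` is `π (2 dim X - j)`. -/
def SelfDual (C : ChowTheory.{u, v} 𝒱) {X : 𝒱.Obj} (π : ℕ → C.CH (X.prod X)) : Prop :=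
  ∀ j ≤ 2 * X.dim, transpose C (π j) = π (2 * X.dim - j)

/-- The operator `T` is the identity. -/
def IsIdMap {K : Type w} [Field K] {V : Type w} [AddCommGroup V] [Module K V]
    (T : V →ₗ[K] V) : Prop :=
  ∀ a, T a = a

/-- The correspondences `g a`, for `a` in the group `G`, are a group of isometries of the motive of
`X`: `g 1` is the diagonal, `g (a * b)` is the composition of `g a` and `g b`, and the transpose of
`g a` is its inverse. -/
structure IsIsometryGroup (C : ChowTheory.{u, v} 𝒱) (X : 𝒱.Obj) {G : Type*} [Group G]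
    (g : G → C.CH (X.prod X)) : Prop where
  mem : ∀ a, IsDegreeZero C (g a)
  one : g 1 = C.diagC X
  mul : ∀ a b, C.comp (g a) (g b) = g (a * b)
  transp : ∀ a, transpose C (g a) = g a⁻¹

/-- The correspondences `α` and `β` commute. -/
def Comm (C : ChowTheory.{u, v} 𝒱) {X : 𝒱.Obj} (α β : C.CH (X.prod X)) : Prop :=
  C.comp α β = C.comp β α

/-- The correspondence `t` commutes with all `g a`. -/
def Invariant (C : ChowTheory.{u, v} 𝒱) {X : 𝒱.Obj} {G : Type*} (g : G → C.CH (X.prod X))
    (t : C.CH (X.prod X)) : Prop :=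
  ∀ a, Comm C t (g a)

/-- `π` is a Chow–Künneth decomposition of `X` which is triangular, self-dual and commutes with all
`g a`. -/
def IsInvariantSelfDual (W : WeilTheory.{u, v, w} C) {X : 𝒱.Obj} {G : Type*}
    (g : G → C.CH (X.prod X)) (π : ℕ → C.CH (X.prod X)) : Prop :=
  W.IsCK X π ∧ C.IsTriangular π ∧ SelfDual C π ∧ ∀ j, Invariant C g (π j)

end Pool.Agent.Run7.h192.Murre
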