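import Pool.Agent.Run7.h192.Murre.SDefs
import Pool.Agent.Run7.h192.Murre.TDefs

/-!
# Splittings in the middle, triangular decompositions: definitions
-/

open Pool.Agent.H914 Pool.Agent.R903

universe u v w

namespace Pool.Agent.Run7.h192.Murre

variable {k : Type u} [Field k] {𝒱 : VarClass k} {C : ChowTheory.{u, v} 𝒱}

/-- `X` splits in the middle: `h(X) = A ⊕ B` with `H(A) = H^(≤ dim X)(X)`,
`H(B) = H^(> dim X)(X)` and `Hom(A, B) = 0`. -/
def SplitsInMiddle (W : WeilTheory.{u, v, w} C) (X : 𝒱.Obj) : Prop :=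
  ∃ t, IsSplitting W X X.dim t

/-- `X` has a triangular Chow–Künneth decomposition: `Hom(h^a(X), h^b(X)) = 0` for `a < b`. -/
def HasTriangularCK (W : WeilTheory.{u, v, w} C) (X : 𝒱.Obj) : Prop :=
  ∃ π : ℕ → C.CH (X.prod X), W.IsCK X π ∧ C.IsTriangular π

/-- `X` has a self-dual triangular Chow–Künneth decomposition. -/
def HasSelfDualCK (W : WeilTheory.{u, v, w} C) (X : 𝒱.Obj) : Prop :=
  ∃ π : ℕ → C.CH (X.prod X), W.IsCK X π ∧ C.IsTriangular π ∧ SelfDual C π

/-- All varieties of dimension `n` satisfy `P`, for arbitrarily large `n`. -/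
def InLargeDimensions {𝒱 : VarClass k} (P : 𝒱.Obj → Prop) : Prop :=
  ∀ N, ∃ n ≥ N, ∀ X : 𝒱.Obj, X.dim = n → P X

end Pool.Agent.Run7.h192.Murre
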