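import Pool.Agent.Run7.h192.Murre.TDefs

/-!
# Isometric decompositions
-/

open Pool.Agent.H914 Pool.Agent.R903

universe u v w

namespace Pool.Agent.Run7.h192.Murre

variable {k : Type u} [Field k] {𝒱 : VarClass k} {C : ChowTheory.{u, v} 𝒱}

/-- `β` is the inverse of `α`. -/
def IsInverse (C : ChowTheory.{u, v} 𝒱) {X : 𝒱.Obj} (α β : C.CH (X.prod X)) : Prop :=
  C.comp α β = C.diagC X ∧ C.comp β α = C.diagC X

/-- The Chow–Künneth decompositions `π` and `π'` are isometric: there is a correspondence `φ` of
degree `0` whose transpose is its inverse, which acts as the identity on cohomology and transforms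
`π` into `π'`, and which commutes with all correspondences that commute with all `π j` and
`π' j`. -/
def Isometric (W : WeilTheory.{u, v, w} C) {X : 𝒱.Obj} (π π' : ℕ → C.CH (X.prod X)) : Prop :=
  ∃ φ, IsDegreeZero C φ ∧ IsInverse C φ (transpose C φ) ∧ IsIdMap (W.act φ) ∧
    (∀ j, C.comp (π j) φ = C.comp φ (π' j)) ∧
    ∀ γ, (∀ j, Comm C (π j) γ ∧ Comm C (π' j) γ) → Comm C φ γ

end Pool.Agent.Run7.h192.Murre
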