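import Pool.Agent.Run7.h192.Murre.Geo
import Pool.Agent.Run7.h192.Murre.IsoDefs

/-!
# Self-dual decompositions are isometric
-/

set_option autoImplicit false

open CategoryTheory CategoryTheory.Limits AlgebraicGeometry Finset
open Pool.Agent.H914 Pool.Agent.H914.VarClass Pool.Agent.H914.VarClass.Obj Pool.Agent.R903

universe u v w

namespace Pool.Agent.Run7.h192.Murre

variable {k : Type u} [Field k] {𝒱 : VarClass k} {C : ChowTheory.{u, v} 𝒱}
  {W : WeilTheory.{u, v, w} C} {X Y : 𝒱.Obj} {π π' : ℕ → C.CH (X.prod X)}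

theorem isometric_of_selfDual (hN : W.NoPhantoms X) (h : W.IsCK X π) (hT : C.IsTriangular π)
    (hS : SelfDual C π) (h' : W.IsCK X π') (hS' : SelfDual C π') : Isometric W π π' := by
  have hT' : C.IsTriangular π' := fun a b hab γ hγ =>
    triangular_of_one hN h hT π' π' h' h' a b hab γ hγ
  have h1 := (sys_of h).conj (sys_of h') (blocks_zero_ring hN h hT h')
    (blocks_zero_ring hN h' hT' h)
  set φ : C.CH (X.prod X) := ∑ j ∈ Finset.range (2 * X.dim + 1), C.comp (π j) (π' j) with hφ
  set ψ : C.CH (X.prod X) := ∑ j ∈ Finset.range (2 * X.dim + 1), C.comp (π' j) (π j) with hψ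
  have e1 : CorrRing.of C X φ = ∑ j ∈ Finset.range (2 * X.dim + 1), rg π' j * rg π j := by
    rw [hφ, map_sum]
    rfl
  have e2 : CorrRing.of C X ψ = ∑ j ∈ Finset.range (2 * X.dim + 1), rg π j * rg π' j := by
    rw [hψ, map_sum]
    rfl
  rw [← e1, ← e2] at h1
  obtain ⟨h2, h3, h4⟩ := h1
  have hψφ : C.transp φ = ψ := by
    rw [hφ, hψ, C.transp_sum]
    have h5 : ∀ j ∈ Finset.range (2 * X.dim + 1), C.transp (C.comp (π j) (π' j)) =
        (fun j => C.comp (π' j) (π j)) (2 * X.dim + 1 - 1 - j) := by
      intro j hj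
      rw [Finset.mem_range] at hj
      have h6 : C.transp (π j) = π (2 * X.dim - j) := hS j (by omega)
      have h7 : C.transp (π' j) = π' (2 * X.dim - j) := hS' j (by omega)
      dsimp only
      rw [← C.comp_transp, h6, h7, Nat.add_sub_cancel]
    rw [Finset.sum_congr rfl h5,
      Finset.sum_range_reflect (fun j => C.comp (π' j) (π j)) (2 * X.dim + 1)]
  refine ⟨φ, Submodule.sum_mem _ fun j _ => comp_mem0 (h.mem j) (h'.mem j), ⟨?_, ?_⟩, ?_, ?_, ?_⟩
  · change C.comp φ (C.transp φ) = _
    rw [hψφ]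
    apply of_inj
    rw [CorrRing.of_comp, CorrRing.of_one]
    exact h3
  · change C.comp (C.transp φ) φ = _
    rw [hψφ]
    apply of_inj
    rw [CorrRing.of_comp, CorrRing.of_one]
    exact h2
  · intro a
    refine gr_induction (W.isInternal X) (p := fun a => W.act φ a = a) ?_ ?_ a
    · intro l a ha
      rw [hφ, W.act_sum, LinearMap.sum_apply]
      have h5 : ∀ j, W.act (C.comp (π j) (π' j)) a = if l = j then a else 0 := by
        intro j
        rw [act_comp0 (h'.mem j), h.proj j l a ha]
        split_ifs with hl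
        · rw [h'.proj j l a ha, if_pos hl]
        · rw [map_zero]
      rw [Finset.sum_congr rfl fun j _ => h5 j, Finset.sum_ite_eq]
      by_cases hl : l < 2 * X.dim + 1
      · rw [if_pos (Finset.mem_range.2 hl)]
      · rw [if_neg (fun h6 => hl (Finset.mem_range.1 h6))]
        rw [W.gr_eq_bot X l (by omega), Submodule.mem_bot] at ha
        exact ha.symm
    · intro a b ha hb
      rw [map_add, ha, hb]
  · intro j
    apply of_inj
    rw [CorrRing.of_comp, CorrRing.of_comp]
    exact h4 j
  · intro γ hγ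
    have hγ1 : ∀ j, C.comp (π j) γ = C.comp γ (π j) := fun j => (hγ j).1
    have hγ2 : ∀ j, C.comp (π' j) γ = C.comp γ (π' j) := fun j => (hγ j).2
    change C.comp φ γ = C.comp γ φ
    rw [hφ, C.sum_comp, C.comp_sum]
    refine Finset.sum_congr rfl fun j _ => ?_
    rw [C.comp_assoc, hγ2, ← C.comp_assoc, hγ1, C.comp_assoc]

/-- A decomposition of a variety whose self-product satisfies the first half of (B). -/
theorem triangular_of_indep (hP : C.Polarized) (hI : W.Indep (X.prod X) X.dim 0)
    (h : W.IsCK X π) : C.IsTriangular π :=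
  fun a b hab γ hγ => (hI.murreB0 hP).triangular π π h h a b hab γ hγ

end Pool.Agent.Run7.h192.Murre
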