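import Pool.Agent.Run7.h192.Murre.SDefs

/-!
# Murre's conjecture (D): definitions
-/

open Pool.Agent.H914 Pool.Agent.R903

universe u v w

namespace Pool.Agent.Run7.h192.Murre

variable {k : Type u} [Field k] {𝒱 : VarClass k} {C : ChowTheory.{u, v} 𝒱}

/-- `x` is a homologically trivial cycle class of codimension `i`. -/
def IsHomTrivial (W : WeilTheory.{u, v, w} C) {X : 𝒱.Obj} (i : ℕ) (x : C.CH X) : Prop :=
  x ∈ C.gr X i ∧ W.cl X x = 0

/-- Murre's conjecture (D) for `X`: for each Chow–Künneth decomposition of `X` and each `i` the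
subgroup `F^1 CH^i(X)` consists of the homologically trivial classes. -/
def MurreD (W : WeilTheory.{u, v, w} C) (X : 𝒱.Obj) : Prop :=
  ∀ π : ℕ → C.CH (X.prod X), W.IsCK X π → ∀ i x, x ∈ C.ckFil π i 1 ↔ IsHomTrivial W i x

/-- `X` splits in the middle, with (D) in the middle codimension: `dim X` is even,
`h(X) = A ⊕ B` with `H(A) = H^(≤ dim X)(X)`, `H(B) = H^(> dim X)(X)` and `Hom(A, B) = 0`, and the
transpose of the projector onto `A`, whose cohomology is `H^(≥ dim X)(X)`, acts as zero on the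
homologically trivial classes of codimension `dim X / 2`. -/
def MiddleD (W : WeilTheory.{u, v, w} C) (X : 𝒱.Obj) : Prop :=
  ∃ t, IsSplitting W X X.dim t ∧ ∃ r, X.dim = 2 * r ∧
    ∀ z, IsHomTrivial W r z → C.act (transpose C t) z = 0

/-- All varieties of dimension `2 r` satisfy `P`, for arbitrarily large `r`. -/
def InLargeEvenDimensions {𝒱 : VarClass k} (P : 𝒱.Obj → Prop) : Prop :=
  ∀ N, ∃ r ≥ N, ∀ X : 𝒱.Obj, X.dim = 2 * r → P X

end Pool.Agent.Run7.h192.Murre
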