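import Pool.Agent.Run7.h192.Murre.Desc
import Pool.Agent.Run7.h192.Murre.DDefs

/-!
# Murre's conjecture (D) and the middle codimension
-/

set_option autoImplicit false

open CategoryTheory CategoryTheory.Limits AlgebraicGeometry Finset
open Pool.Agent.H914 Pool.Agent.H914.VarClass Pool.Agent.H914.VarClass.Obj Pool.Agent.R903
open Pool.Agent.R903.ChowTheory Pool.Agent.R903.WeilTheory

universe u v w

namespace Pool.Agent.Run7.h192.Murre

variable {k : Type u} [Field k] {𝒱 : VarClass k} {C : ChowTheory.{u, v} 𝒱}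
  {W : WeilTheory.{u, v, w} C} {X Y Z P : 𝒱.Obj}

lemma cl_eq_zero_of_act (W : WeilTheory.{u, v, w} C) {γ : C.CH (X.prod Y)} (h : W.act γ = 0) :
    W.cl (X.prod Y) γ = 0 := by
  apply W.nondeg
  intro c
  refine W.kunneth_induction (p := fun c => W.tr (X.prod Y) (W.cl (X.prod Y) γ * c) = 0) ?_ ?_ c
  · intro a b ha hb
    rw [mul_add, map_add, ha, hb, add_zero]
  · intro p q a _ b _
    have h1 : W.tr Y (W.act γ a * b) = 0 := by rw [h]; simp
    rw [WeilTheory.act_apply, W.tr_push, mul_assoc] at h1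
    exact h1

lemma act_eq_zero_of_cl (W : WeilTheory.{u, v, w} C) {γ : C.CH (X.prod Y)}
    (h : W.cl (X.prod Y) γ = 0) : W.act γ = 0 := by
  ext a
  rw [WeilTheory.act_apply, h, zero_mul, map_zero, LinearMap.zero_apply]

lemma cl_zero_of_mem_fil {π : ℕ → C.CH (X.prod X)} (h : W.IsCK X π) {i : ℕ} {x : C.CH X}
    (hx : x ∈ C.ckFil π i 1) : IsHomTrivial W i x := by
  rw [mem_ckFil h] at hx
  refine ⟨hx.1, ?_⟩
  have h1 := h.proj (2 * i) _ _ (W.cl_mem hx.1)
  rw [if_pos rfl, ← W.cl_act, hx.2 (2 * i) (by omega), map_zero] at h1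
  exact h1.symm

/-! ### from (D) to the strict vanishing -/

/-- (D) for `X × X` gives `π b ∘ g ∘ π a = 0` for `b ≥ a` and homologically trivial `g`. -/
lemma strict_of_murreD (hD : MurreD W (X.prod X)) {π : ℕ → C.CH (X.prod X)} (h : W.IsCK X π)
    {a b : ℕ} (hab : a ≤ b) {g : C.CH (X.prod X)} (hg : g ∈ C.gr (X.prod X) X.dim)
    (h0 : W.act (C.comp (C.comp (π a) g) (π b)) = 0) : C.comp (C.comp (π a) g) (π b) = 0 := by
  by_cases hb : 2 * X.dim < b
  · rw [h.eq_zero hb, C.comp_zero]
  have hCK := h.transp.prod h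
  have hm : C.comp (C.comp (π a) g) (π b) ∈ C.gr (X.prod X) X.dim :=
    C.comp_mem (C.comp_mem (h.mem a) hg rfl) (h.mem b) rfl
  have h1 := ((hD _ hCK X.dim _).2 ⟨hm, cl_eq_zero_of_act W h0⟩)
  rw [mem_ckFil hCK] at h1
  have h2 := h1.2 (2 * X.dim - a + b) (by omega)
  rwa [act_prodCK_block h h (by omega)] at h2

lemma triangular_of_murreD (hD : MurreD W (X.prod X)) {π : ℕ → C.CH (X.prod X)}
    (h : W.IsCK X π) : C.IsTriangular π := by
  intro a b hab γ hγ
  refine strict_of_murreD hD h hab.le hγ ?_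
  apply LinearMap.ext
  intro x
  rw [act_comp0 (h.mem b), act_comp0 hγ, LinearMap.zero_apply]
  refine gr_induction (W.isInternal X)
    (p := fun x => W.act (π b) (W.act γ (W.act (π a) x)) = 0) ?_ ?_ x
  · intro l x hx
    rw [h.proj a l x hx]
    split_ifs with hl
    · rw [h.proj b l _ (act_mem0 W hγ hx), if_neg (by omega)]
    · rw [map_zero, map_zero]
  · intro x y hx hy
    rw [map_add, map_add, map_add, hx, hy, add_zero]

lemma noPhantoms_of_murreD (hD : MurreD W (X.prod X)) (hCK : W.HasCK X) : W.NoPhantoms X := by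
  obtain ⟨π, h⟩ := hCK
  intro e he hee h0
  have h0' : W.act e = 0 := LinearMap.ext h0
  apply of_eq_zero
  refine (sys_of h).eq_zero_of_blocks (low_of (triangular_of_murreD hD h) he) ?_ ?_
  · rw [CorrRing.of_mul, hee]
  · intro c
    have h1 : C.comp (C.comp (π c) e) (π c) = 0 := by
      refine strict_of_murreD hD h le_rfl he ?_
      apply LinearMap.ext
      intro x
      rw [act_comp0 (h.mem c), act_comp0 he, h0', LinearMap.zero_apply, map_zero,
        LinearMap.zero_apply]
    have h2 := congrArg (CorrRing.of C X) h1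
    rw [map_zero, CorrRing.of_comp, CorrRing.of_comp, ← mul_assoc] at h2
    exact h2

lemma middleD_of_murreD (hD : MurreD W X) (hD2 : MurreD W (X.prod X)) (hCK : W.HasCK X) {r : ℕ}
    (hr : X.dim = 2 * r) : MiddleD W X := by
  obtain ⟨π, h⟩ := hCK
  have hT := triangular_of_murreD hD2 h
  have hF : Full (fun s => elt (π s) (h.mem s)) (2 * X.dim) :=
    { sys :=
        { idem := fun j => ud_inj (by rw [ud_mul, ud_elt, h.idem])
          orth := fun i j hij => ud_inj (by
            rw [ud_mul, ud_elt, ud_elt, h.orth j i (Ne.symm hij), map_zero])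
          sum := ud_inj (by
            rw [map_sum, ud_one, ← h.sum]
            rfl)
          zero := fun j hj => ud_inj (by rw [ud_elt, h.eq_zero (by omega), map_zero]) }
      low := fun T a b hab => ud_inj (by
        rw [ud_mul, ud_mul, ud_elt, ud_elt, map_zero, ← C.comp_assoc]
        exact hT a b hab _ (ud_mem T)) }
  refine ⟨ud (tr (fun s => elt (π s) (h.mem s)) X.dim), isSplitting_of (hF.inv_tr X.dim) ?_, r, hr,
    ?_⟩
  · intro l a ha
    rw [tr, ac_sum]
    have h1 : ∀ s, ac W (elt (π s) (h.mem s)) a = if l = s then a else 0 :=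
      fun s => h.proj s l a ha
    rw [Finset.sum_congr rfl fun s _ => h1 s, Finset.sum_ite_eq]
    simp only [Finset.mem_range, Nat.lt_succ_iff]
  · intro z hz
    have h1 : transpose C (ud (tr (fun s => elt (π s) (h.mem s)) X.dim)) =
        ∑ s ∈ range (X.dim + 1), C.transp (π s) := by
      change C.transp _ = _
      rw [tr, map_sum, C.transp_sum]
      rfl
    rw [h1, act_sum_apply]
    refine Finset.sum_eq_zero fun s hs => ?_
    rw [Finset.mem_range] at hs
    have h2 := (hD _ h.transp r z).2 hz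
    rw [mem_ckFil h.transp] at h2
    have h3 := h2.2 (2 * X.dim - s) (by omega)
    rw [transCK, if_pos (by omega), Nat.sub_sub_self (by omega)] at h3
    exact h3

/-! ### from the middle codimension to (D) -/

/-- The three algebraic properties of the descended projector. -/
lemma Factor.desc {p q : ℕ} {α : C.CH (X.prod Z)} {β : C.CH (Z.prod X)} (F : Factor C X Z p q α β)
    {J : ℕ} {t : C.CH (Z.prod Z)} (ht : IsSplitting W Z J t) :
    C.comp (C.comp α t) β ∈ C.gr (X.prod X) X.dim ∧
      ∀ γ ∈ C.gr (X.prod X) X.dim, C.comp (C.comp (C.comp α t) β) γ =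
        C.comp (C.comp (C.comp (C.comp α t) β) γ) (C.comp (C.comp α t) β) := by
  refine ⟨C.comp_mem (C.comp_mem F.hα ht.mem rfl) F.hβ (by have := F.deg; omega), fun γ hγ => ?_⟩
  have h2 := ht.inv _ (F.mem_mid hγ)
  symm
  calc C.comp (C.comp (C.comp (C.comp α t) β) γ) (C.comp (C.comp α t) β)
      = C.comp (C.comp α (C.comp (C.comp t (C.comp (C.comp β γ) α)) t)) β := by
        simp only [C.comp_assoc]
    _ = C.comp (C.comp α (C.comp t (C.comp (C.comp β γ) α))) β := by rw [← h2]
    _ = C.comp (C.comp (C.comp α t) β) (C.comp γ (C.comp α β)) := by simp only [C.comp_assoc]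
    _ = _ := by rw [F.comp, C.comp_diagC]

theorem murreD_of_middle (hP : C.Polarized) (hN : W.NoPhantoms (Y.prod X)) (hY : 1 ≤ Y.dim)
    (hd : X.dim ≤ Y.dim) (hM : MiddleD W (Y.prod X)) : MurreD W X := by
  intro ρ hρ i x
  refine ⟨cl_zero_of_mem_fil hρ, fun hx => ?_⟩
  obtain ⟨t, ht, r, hr, hz⟩ := hM
  have hdim : (Y.prod X).dim = Y.dim + X.dim := by rw [dim_prod]
  have hNX : W.NoPhantoms X := by
    obtain ⟨q, α, β, F⟩ := exists_factor_prod hP X Y (i := 0) (Nat.zero_le _)
    exact F.noPhantoms hN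
  by_cases hi : X.dim < i
  · have h1 := hx.1
    rw [C.gr_eq_bot X i hi, Submodule.mem_bot] at h1
    rw [h1]
    exact Submodule.zero_mem _
  obtain ⟨q, α, β, F⟩ := exists_factor_prod hP X Y (i := r - i) (by omega)
  -- the lift of `x`
  have hzh : IsHomTrivial W r (C.act α x) := by
    refine ⟨C.act_mem F.hα hx.1 (by omega), ?_⟩
    rw [W.cl_act, hx.2, map_zero]
  set t' : R0 C (Y.prod X) := 1 - tp (elt t ht.mem) with ht'
  have hs : IsSplitting W (Y.prod X) (2 * (Y.prod X).dim - 1 - (Y.prod X).dim) (ud t') :=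
    isSplitting_of (inv_dual ht.toInv) (dual_proj (by omega) ht.proj)
  obtain ⟨hτm, hτi⟩ := F.desc hs
  -- `x` is fixed by the descended projector
  have hfix : C.act (C.comp (C.comp α (ud t')) β) x = x := by
    have h1 : C.act (ud t') (C.act α x) = C.act α x := by
      have h2 : ud t' = C.diagC (Y.prod X) - transpose C t := rfl
      rw [h2, C.act_sub, LinearMap.sub_apply, C.act_diagC, hz _ hzh, sub_zero]
    rw [C.act_comp, C.act_comp, h1, ← C.act_comp, F.comp, C.act_diagC]
  rw [mem_ckFil hρ]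
  refine ⟨hx.1, fun b hb => ?_⟩
  have hκ : C.comp (C.comp (C.comp α (ud t')) β) (ρ b) = 0 := by
    refine hNX _ (comp_mem0 hτm (hρ.mem b)) ?_ ?_
    · have h1 := hτi _ (hρ.mem b)
      rw [← C.comp_assoc, ← h1, C.comp_assoc, hρ.idem]
    · intro a
      rw [act_comp0 (hρ.mem b), W.act_comp _ F.hβ, W.act_comp _ hs.mem]
      refine gr_induction (W.isInternal X)
        (p := fun a => W.act (ρ b) (W.act β (W.act (ud t') (W.act α a))) = 0) ?_ ?_ a
      · intro l a ha
        have h1 := act_shift W F.hα ha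
        have h2 : (l : ℤ) + 2 * (((r - i + X.dim : ℕ) : ℤ) - X.dim) = ((l + 2 * (r - i) : ℕ) : ℤ) := by
          push_cast
          ring
        rw [h2, grZ_natCast] at h1
        rw [hs.proj _ _ h1]
        split_ifs with hl
        · rw [F.act_act, hρ.proj b l a ha, if_neg (by omega)]
        · rw [map_zero, map_zero]
      · intro a c ha hc
        rw [map_add, map_add, map_add, map_add, ha, hc, add_zero]
  rw [← hfix, ← C.act_comp, hκ, C.act_zero, LinearMap.zero_apply]

end Pool.Agent.Run7.h192.Murre
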