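import Pool.Agent.R903.MurreDefs

/-!
# Direct factors: definitions
-/

open CategoryTheory Pool.Agent.H914 Pool.Agent.R903

universe u v w

namespace Pool.Agent.Run7.h192.Murre

variable {k : Type u} [Field k] {𝒱 : VarClass k}

/-- The class `x` has codimension `p`. -/
def HasCodim (C : ChowTheory.{u, v} 𝒱) {X : 𝒱.Obj} (p : ℕ) (x : C.CH X) : Prop :=
  x ∈ C.gr X p

/-- The motive of `X` is a direct factor of a twist of the motive of `Z`, by the correspondences
`α` and `β` of codimensions `p` and `q`. -/
structure Factor (C : ChowTheory.{u, v} 𝒱) (X Z : 𝒱.Obj) (p q : ℕ) (α : C.CH (X.prod Z))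
    (β : C.CH (Z.prod X)) : Prop where
  hα : HasCodim C p α
  hβ : HasCodim C q β
  deg : p + q = X.dim + Z.dim
  comp : C.comp α β = C.diagC X

/-- The motive of `X` is a direct factor of a twist of the motive of `Z`. -/
def IsFactor (C : ChowTheory.{u, v} 𝒱) (X Z : 𝒱.Obj) : Prop :=
  ∃ p q α β, Factor C X Z p q α β

/-- `X` is dominated by `Z`: there are a morphism `f : Z → X` and a cycle `y` on `Z` of codimension
`dim Z - dim X` such that `f_* y` is a nonzero multiple of the class of `X`. (For instance `f` is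
surjective, and `y` is a power of an ample divisor.) -/
def Dominates (C : ChowTheory.{u, v} 𝒱) (Z X : 𝒱.Obj) : Prop :=
  ∃ (f : Z ⟶ X) (e : ℕ) (y : C.CH Z) (c : ℚ), e + X.dim = Z.dim ∧ HasCodim C e y ∧ c ≠ 0 ∧
    C.push f y = c • 1

end Pool.Agent.Run7.h192.Murre
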