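import Pool.Agent.Run7.h192.Murre.DDefs

/-!
# Murre's conjectures (A), (B), (C), (D): definitions
-/

open Pool.Agent.H914 Pool.Agent.R903

universe u v w

namespace Pool.Agent.Run7.h192.Murre

variable {k : Type u} [Field k] {𝒱 : VarClass k} {C : ChowTheory.{u, v} 𝒱}

/-- Murre's conjectures for `h(X)`: (A) `X` has a Chow–Künneth decomposition; (B) for all of them
`F^0 CH^i(X) = CH^i(X)`, that is `CH^i(h^j(X)) = 0` for `j > 2 i`; (C) the filtrations do not depend
on the decomposition; (D) `F^1 CH^i(X)` consists of the homologically trivial classes, for all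
decompositions. -/
def MurreABCD (W : WeilTheory.{u, v, w} C) (X : 𝒱.Obj) : Prop :=
  W.HasCK X ∧ (∀ i, W.MurreB0 X i) ∧ W.MurreC X ∧ MurreD W X

end Pool.Agent.Run7.h192.Murre
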