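import Pool.Agent.Run7.h192.Murre.DeeMain
import Pool.Agent.Run7.h192.Murre.EDefs

/-!
# Murre's conjectures (A), (B), (C), (D) in the middle of large dimensions
-/

set_option autoImplicit false

open Pool.Agent.H914 Pool.Agent.R903

universe u v w

namespace Pool.Agent.Run7.h192.Murre

theorem middleABCD {k : Type u} [Field k] {𝒱 : VarClass k} {C : ChowTheory.{u, v} 𝒱}
    (W : WeilTheory.{u, v, w} C) (hP : C.Polarized) :
    (∀ X Y : 𝒱.Obj, 1 ≤ Y.dim → X.dim ≤ Y.dim → W.NoPhantoms (Y.prod X) → MiddleD W (Y.prod X) →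
      MurreABCD W X) ∧
    ((∃ c : 𝒱.Obj, c.dim = 1) →
      [∀ X : 𝒱.Obj, MurreABCD W X,
        ∀ X : 𝒱.Obj, W.HasCK X ∧ MurreD W X,
        InLargeEvenDimensions fun X => W.NoPhantoms X ∧ MiddleD W X].TFAE) := by
  obtain ⟨h1, h2⟩ := middleCodimension W hP
  have h3 : ∀ X Y : 𝒱.Obj, 1 ≤ Y.dim → X.dim ≤ Y.dim → W.NoPhantoms (Y.prod X) →
      MiddleD W (Y.prod X) → MurreABCD W X := by
    intro X Y hY hd hN hM
    obtain ⟨⟨π, h4, -, -⟩, h5, h6⟩ := h1 X Y hY hd hN hM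
    exact ⟨⟨π, h4⟩, fun i => (h5 i 0).murreB0 hP, h5, h6⟩
  refine ⟨h3, fun hc => ?_⟩
  tfae_have 1 → 2 := fun h X => ⟨(h X).1, (h X).2.2.2⟩
  tfae_have 2 → 3 := (h2 hc).1
  tfae_have 3 → 1 := fun h X => by
    obtain ⟨r, hr, hs⟩ := h (X.dim + 1)
    obtain ⟨Y, hY⟩ := exists_dim hc (2 * r - X.dim) (by omega)
    have hZ : (Y.prod X).dim = 2 * r := by rw [VarClass.Obj.dim_prod, hY]; omega
    obtain ⟨hN, hM⟩ := hs (Y.prod X) hZ
    exact h3 X Y (by omega) (by omega) hN hM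
  tfae_finish

end Pool.Agent.Run7.h192.Murre
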