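import Pool.Agent.R903.MurreDefs

/-!
# Conjugate decompositions
-/

open Pool.Agent.H914 Pool.Agent.R903

universe u v w

namespace Pool.Agent.Run7.h192.Murre

variable {k : Type u} [Field k] {𝒱 : VarClass k} {C : ChowTheory.{u, v} 𝒱}

/-- The Chow–Künneth decompositions `π` and `π'` are isomorphic: an invertible correspondence of
degree `0` which acts as the identity on cohomology transforms `π` into `π'`. -/
def Conjugate (W : WeilTheory.{u, v, w} C) {X : 𝒱.Obj} (π π' : ℕ → C.CH (X.prod X)) : Prop :=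
  ∃ φ ∈ C.gr (X.prod X) X.dim, ∃ ψ ∈ C.gr (X.prod X) X.dim,
    C.comp φ ψ = C.diagC X ∧ C.comp ψ φ = C.diagC X ∧ (∀ a, W.act φ a = a) ∧
    ∀ j, C.comp (π j) φ = C.comp φ (π' j)

end Pool.Agent.Run7.h192.Murre
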