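import Pool.Agent.Run7.h192.Murre.Dee
import Pool.Agent.Run7.h192.Murre.MDefs

/-!
# Murre's conjecture (D) and the middle codimension: main statement
-/

set_option autoImplicit false

open Pool.Agent.H914 Pool.Agent.R903

universe u v w

namespace Pool.Agent.Run7.h192.Murre

theorem middleCodimension {k : Type u} [Field k] {𝒱 : VarClass k} {C : ChowTheory.{u, v} 𝒱}
    (W : WeilTheory.{u, v, w} C) (hP : C.Polarized) :
    (∀ X Y : 𝒱.Obj, 1 ≤ Y.dim → X.dim ≤ Y.dim → W.NoPhantoms (Y.prod X) → MiddleD W (Y.prod X) →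
      HasSelfDualCK W X ∧ W.MurreC X ∧ MurreD W X) ∧
    ((∃ c : 𝒱.Obj, c.dim = 1) →
      ((∀ X : 𝒱.Obj, W.HasCK X ∧ MurreD W X) ↔
        InLargeEvenDimensions fun X => W.NoPhantoms X ∧ MiddleD W X)) := by
  have h1 : ∀ X Y : 𝒱.Obj, 1 ≤ Y.dim → X.dim ≤ Y.dim → W.NoPhantoms (Y.prod X) →
      MiddleD W (Y.prod X) → HasSelfDualCK W X ∧ W.MurreC X ∧ MurreD W X := by
    intro X Y hY hd hN hM
    obtain ⟨t, ht, -⟩ := id hM
    obtain ⟨π, h2, h3, h4⟩ := exists_selfDual' (W := W) (X := X)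
      fun j hj => splitting_of_middle hP X Y hd ht hj
    obtain ⟨q, α, β, F⟩ := exists_factor_prod hP X Y (i := 0) (Nat.zero_le _)
    exact ⟨⟨π, h2, h3, h4⟩, (triangular_of_one (F.noPhantoms hN) h2 h3).murreC,
      murreD_of_middle hP hN hY hd hM⟩
  refine ⟨h1, fun hc => ⟨fun h N => ⟨N, le_rfl, fun X hX => ?_⟩, fun h X => ?_⟩⟩
  · exact ⟨noPhantoms_of_murreD (h _).2 (h X).1, middleD_of_murreD (h X).2 (h _).2 (h X).1 hX⟩
  · obtain ⟨r, hr, hs⟩ := h (X.dim + 1)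
    obtain ⟨Y, hY⟩ := exists_dim hc (2 * r - X.dim) (by omega)
    have hZ : (Y.prod X).dim = 2 * r := by rw [VarClass.Obj.dim_prod, hY]; omega
    obtain ⟨hN, hM⟩ := hs (Y.prod X) hZ
    obtain ⟨⟨π, h2, _⟩, _, h3⟩ := h1 X Y (by omega) (by omega) hN hM
    exact ⟨⟨π, h2⟩, h3⟩

end Pool.Agent.Run7.h192.Murre
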