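import Mathlib

/-!
# Triangular systems of idempotents
-/

set_option autoImplicit false

namespace Pool.Agent.Run7.h192.Murre

open Finset

variable {R : Type*} [Ring R]

/-- orthogonal idempotents with sum `1` -/
structure Sys (P : ℕ → R) (N : ℕ) : Prop where
  idem : ∀ j, P j * P j = P j
  orth : ∀ i j, i ≠ j → P i * P j = 0
  sum : ∑ j ∈ range N, P j = 1
  zero : ∀ j, N ≤ j → P j = 0

variable {P P' : ℕ → R} {N : ℕ}

/-- the element maps nothing up -/
def Low (P : ℕ → R) (T : R) : Prop := ∀ a b, a < b → P b * T * P a = 0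

lemma Sys.expand (h : Sys P N) (x y : R) : x * y = ∑ d ∈ range N, x * P d * y := by
  rw [← Finset.sum_mul, ← Finset.mul_sum, h.sum, mul_one]

/-- A product of two operators, cut out by two projectors of the same index. -/
lemma Sys.block_mul (h : Sys P N) {T U : R} (hT : Low P T) (hU : Low P U) (c : ℕ) :
    P c * (T * U) * P c = P c * T * P c * U * P c := by
  have h1 : P c * (T * U) * P c = ∑ d ∈ range N, P c * T * P d * (U * P c) := by
    rw [← h.expand (P c * T) (U * P c)]
    simp only [mul_assoc]
  rw [h1]
  by_cases hc : c < N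
  · rw [Finset.sum_eq_single c]
    · simp only [mul_assoc]
    · intro d _ hd
      rcases lt_or_gt_of_ne hd with hd | hd
      · rw [hT d c hd, zero_mul]
      · rw [mul_assoc _ (P d), ← mul_assoc (P d), hU c d hd, mul_zero]
    · intro hc'
      exact absurd (Finset.mem_range.2 hc) hc'
  · rw [h.zero c (not_lt.1 hc)]
    simp

lemma Sys.block_idem (h : Sys P N) {T : R} (hT : Low P T) (hTT : T * T = T) (c : ℕ) :
    P c * T * P c * (P c * T * P c) = P c * T * P c := by
  have h1 := h.block_mul hT hT c
  rw [hTT] at h1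
  conv_rhs => rw [h1]
  have h2 : P c * T * P c * (P c * T * P c) = P c * T * (P c * P c) * T * P c := by
    simp only [mul_assoc]
  rw [h2, h.idem]

/-- An idempotent with zero blocks below `a` kills the part of degree `a`. -/
lemma Sys.left (h : Sys P N) {T : R} (hT : Low P T) (hTT : T * T = T) {a : ℕ}
    (hb : ∀ c ≤ a, P c * T * P c = 0) : T * P a = 0 := by
  have key : ∀ n c, a < c + n → P c * T * P a = 0 := by
    intro n
    induction n with
    | zero => intro c hc; exact hT a c (by simpa using hc)
    | succ n ih =>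
      intro c hc
      by_cases hc' : a < c + n
      · exact ih c hc'
      have h1 : P c * T * P a = ∑ d ∈ range N, P c * T * P d * (T * P a) := by
        rw [← h.expand (P c * T) (T * P a)]
        conv_lhs => rw [← hTT]
        simp only [mul_assoc]
      rw [h1]
      refine Finset.sum_eq_zero fun d _ => ?_
      rcases lt_trichotomy d c with hd | hd | hd
      · rw [hT d c hd, zero_mul]
      · rw [hd, hb c (by omega), zero_mul]
      · rw [mul_assoc _ (P d), ← mul_assoc (P d), ih d (by omega), mul_zero]
  have h1 : T * P a = ∑ d ∈ range N, P d * T * P a := by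
    rw [← Finset.sum_mul, ← Finset.sum_mul, h.sum, one_mul]
  rw [h1]
  exact Finset.sum_eq_zero fun d _ => key (a + 1) d (by omega)

/-- An idempotent with zero blocks above `b` has no component of degree `b`. -/
lemma Sys.right (h : Sys P N) {T : R} (hT : Low P T) (hTT : T * T = T) {b : ℕ}
    (hb : ∀ c, b ≤ c → P c * T * P c = 0) : P b * T = 0 := by
  have key : ∀ n c, N ≤ c + n → b ≤ c → P c * T = 0 := by
    intro n
    induction n with
    | zero => intro c hc _; rw [h.zero c (by simpa using hc), zero_mul]
    | succ n ih =>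
      intro c hc hbc
      have h1 : P c * T = ∑ d ∈ range N, P c * T * P d * T := by
        rw [← h.expand (P c * T) T]
        conv_lhs => rw [← hTT]
        simp only [mul_assoc]
      rw [h1]
      refine Finset.sum_eq_zero fun d _ => ?_
      rcases lt_trichotomy d c with hd | hd | hd
      · rw [hT d c hd, zero_mul]
      · rw [hd, hb c hbc, zero_mul]
      · rw [mul_assoc _ (P d), ih d (by omega) (by omega), mul_zero]
  exact key N b (by omega) le_rfl

/-- An idempotent all of whose blocks are zero is zero. -/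
lemma Sys.eq_zero_of_blocks (h : Sys P N) {T : R} (hT : Low P T) (hTT : T * T = T)
    (hb : ∀ c, P c * T * P c = 0) : T = 0 := by
  have h1 : T = ∑ d ∈ range N, T * P d := by rw [← Finset.mul_sum, h.sum, mul_one]
  rw [h1]
  exact Finset.sum_eq_zero fun d _ => h.left hT hTT fun c _ => hb c

/-- Two systems, the second with the blocks of the first. -/
lemma Sys.two (h : Sys P N) (h' : Sys P' N) (hL : ∀ a, Low P (P' a))
    (hb : ∀ a c, a ≠ c → P c * P' a * P c = 0) {a b : ℕ} (hab : a < b) :
    P' b * P a = 0 ∧ P b * P' a = 0 :=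
  ⟨h.left (hL b) (h'.idem b) fun c hc => hb b c (by omega),
    h.right (hL a) (h'.idem a) fun c hc => hb a c (by omega)⟩

lemma Sys.block_same (h : Sys P N) (h' : Sys P' N)
    (hb : ∀ a c, a ≠ c → P c * P' a * P c = 0) (a : ℕ) : P a * P' a * P a = P a := by
  have h1 : P a = ∑ c ∈ range N, P a * P' c * P a := by
    rw [← Finset.sum_mul, ← Finset.mul_sum, h'.sum, mul_one, h.idem]
  by_cases ha : a < N
  · conv_rhs => rw [h1]
    rw [Finset.sum_eq_single a]
    · intro c _ hc
      exact hb c a hc
    · intro hc
      exact absurd (Finset.mem_range.2 ha) hc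
  · rw [h.zero a (not_lt.1 ha)]
    simp

/-- The two systems are conjugate. -/
lemma Sys.conj (h : Sys P N) (h' : Sys P' N)
    (hb : ∀ a c, a ≠ c → P c * P' a * P c = 0)
    (hb' : ∀ a c, a ≠ c → P' c * P a * P' c = 0) :
    (∑ j ∈ range N, P' j * P j) * (∑ j ∈ range N, P j * P' j) = 1 ∧
    (∑ j ∈ range N, P j * P' j) * (∑ j ∈ range N, P' j * P j) = 1 ∧
    ∀ i, (∑ j ∈ range N, P' j * P j) * P i = P' i * (∑ j ∈ range N, P' j * P j) := by
  have key : ∀ (Q Q' : ℕ → R), Sys Q N → Sys Q' N → (∀ a, Q' a * Q a * Q' a = Q' a) →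
      (∑ j ∈ range N, Q' j * Q j) * (∑ j ∈ range N, Q j * Q' j) = 1 := by
    intro Q Q' hQ hQ' hq
    rw [Finset.sum_mul_sum, ← hQ'.sum]
    refine Finset.sum_congr rfl fun i hi => ?_
    rw [Finset.sum_eq_single i]
    · have : Q' i * Q i * (Q i * Q' i) = Q' i * (Q i * Q i) * Q' i := by simp only [mul_assoc]
      rw [this, hQ.idem, hq]
    · intro j _ hj
      have : Q' i * Q i * (Q j * Q' j) = Q' i * (Q i * Q j) * Q' j := by simp only [mul_assoc]
      rw [this, hQ.orth i j (Ne.symm hj)]
      simp
    · intro hc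
      exact absurd hi hc
  refine ⟨key P P' h h' (h'.block_same h hb'), key P' P h' h (h.block_same h' hb), fun i => ?_⟩
  rw [Finset.sum_mul, Finset.mul_sum]
  by_cases hi : i < N
  · rw [Finset.sum_eq_single i, Finset.sum_eq_single i]
    · rw [mul_assoc, h.idem, ← mul_assoc, h'.idem]
    · intro j _ hj
      rw [← mul_assoc, h'.orth i j (Ne.symm hj), zero_mul]
    · intro hc
      exact absurd (Finset.mem_range.2 hi) hc
    · intro j _ hj
      rw [mul_assoc, h.orth j i hj, mul_zero]
    · intro hc
      exact absurd (Finset.mem_range.2 hi) hc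
  · rw [h.zero i (not_lt.1 hi), h'.zero i (not_lt.1 hi)]
    simp

end Pool.Agent.Run7.h192.Murre
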