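import Pool.Agent.R903.Murre
import Pool.Agent.Run7.h192.Murre.Ring
import Pool.Agent.Run7.h192.Murre.Conj

/-!
# One triangular Chow–Künneth decomposition
-/

set_option autoImplicit false

open CategoryTheory CategoryTheory.Limits AlgebraicGeometry
open Pool.Agent.H914 Pool.Agent.H914.VarClass Pool.Agent.H914.VarClass.Obj Pool.Agent.R903

universe u v w

namespace Pool.Agent.Run7.h192.Murre

variable {k : Type u} [Field k] {𝒱 : VarClass k} {C : ChowTheory.{u, v} 𝒱}
  {W : WeilTheory.{u, v, w} C} {X Y : 𝒱.Obj} {π π' : ℕ → C.CH (X.prod X)}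

/-- The elements of the ring of correspondences. -/
noncomputable def rg (π : ℕ → C.CH (X.prod X)) (j : ℕ) : CorrRing C X := CorrRing.of C X (π j)

lemma of_inj {a b : C.CH (X.prod X)} (h : CorrRing.of C X a = CorrRing.of C X b) : a = b :=
  (CorrRing.of C X).injective h

lemma of_eq_zero {a : C.CH (X.prod X)} (h : CorrRing.of C X a = 0) : a = 0 :=
  of_inj (h.trans (map_zero _).symm)

lemma sys_of (h : W.IsCK X π) : Sys (rg π) (2 * X.dim + 1) where
  idem j := by rw [rg, CorrRing.of_mul, h.idem]
  orth i j hij := by rw [rg, rg, CorrRing.of_mul, h.orth j i (Ne.symm hij), map_zero]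
  sum := by
    unfold rg
    rw [← map_sum, h.sum, CorrRing.of_one]
  zero j hj := by rw [rg, h.eq_zero (by omega), map_zero]

lemma low_of (hT : C.IsTriangular π) {γ : C.CH (X.prod X)} (hγ : γ ∈ C.gr (X.prod X) X.dim) :
    Low (rg π) (CorrRing.of C X γ) := by
  intro a b hab
  rw [rg, rg, mul_assoc, CorrRing.of_mul, CorrRing.of_mul, hT a b hab γ hγ, map_zero]

lemma comp_mem0 {α β : C.CH (X.prod X)} (hα : α ∈ C.gr (X.prod X) X.dim)
    (hβ : β ∈ C.gr (X.prod X) X.dim) : C.comp α β ∈ C.gr (X.prod X) X.dim :=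
  C.comp_mem hα hβ rfl

lemma act_comp0 {α β : C.CH (X.prod X)} (hβ : β ∈ C.gr (X.prod X) X.dim) (a : W.H X) :
    W.act (C.comp α β) a = W.act β (W.act α a) := W.act_comp α hβ a

/-- The block of an idempotent correspondence. -/
lemma block_of (h : W.IsCK X π) (hT : C.IsTriangular π) {e : C.CH (X.prod X)}
    (he : e ∈ C.gr (X.prod X) X.dim) (hee : C.comp e e = e) (c : ℕ) :
    C.comp (C.comp (C.comp (π c) e) (π c)) (C.comp (C.comp (π c) e) (π c)) =
      C.comp (C.comp (π c) e) (π c) := by
  apply of_inj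
  have h1 : CorrRing.of C X e * CorrRing.of C X e = CorrRing.of C X e := by
    rw [CorrRing.of_mul, hee]
  have h2 := (sys_of h).block_idem (low_of hT he) h1 c
  simp only [CorrRing.of_comp]
  simp only [rg] at h2
  simp only [mul_assoc] at h2 ⊢
  exact h2

lemma block_mem (h : W.IsCK X π) {e : C.CH (X.prod X)} (he : e ∈ C.gr (X.prod X) X.dim) (c : ℕ) :
    C.comp (C.comp (π c) e) (π c) ∈ C.gr (X.prod X) X.dim :=
  comp_mem0 (comp_mem0 (h.mem c) he) (h.mem c)

/-- The blocks of the members of the second decomposition. -/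
lemma blocks_zero (hN : W.NoPhantoms X) (h : W.IsCK X π) (hT : C.IsTriangular π)
    (h' : W.IsCK X π') {a c : ℕ} (hac : a ≠ c) : C.comp (C.comp (π c) (π' a)) (π c) = 0 := by
  refine hN _ (block_mem h (h'.mem a) c) (block_of h hT (h'.mem a) (h'.idem a) c) ?_
  intro x
  rw [act_comp0 (h.mem c), act_comp0 (h'.mem a)]
  refine gr_induction (W.isInternal X)
    (p := fun x => W.act (π c) (W.act (π' a) (W.act (π c) x)) = 0) ?_ ?_ x
  · intro l x hx
    rw [h.proj c l x hx]
    split_ifs with hl
    · rw [h'.proj a l x hx, if_neg (by omega), map_zero]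
    · rw [map_zero, map_zero]
  · intro x y hx hy
    rw [map_add, map_add, map_add, hx, hy, add_zero]

lemma blocks_zero_ring (hN : W.NoPhantoms X) (h : W.IsCK X π) (hT : C.IsTriangular π)
    (h' : W.IsCK X π') (a c : ℕ) (hac : a ≠ c) : rg π c * rg π' a * rg π c = 0 := by
  have h1 := congrArg (CorrRing.of C X) (blocks_zero hN h hT h' hac)
  rw [map_zero, CorrRing.of_comp, CorrRing.of_comp, ← mul_assoc] at h1
  exact h1

lemma two_of (hN : W.NoPhantoms X) (h : W.IsCK X π) (hT : C.IsTriangular π)
    (h' : W.IsCK X π') {a b : ℕ} (hab : a < b) :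
    C.comp (π a) (π' b) = 0 ∧ C.comp (π' a) (π b) = 0 := by
  have h1 := (sys_of h).two (sys_of h') (fun a => low_of hT (h'.mem a))
    (blocks_zero_ring hN h hT h') hab
  exact ⟨of_eq_zero h1.1, of_eq_zero h1.2⟩

/-- **One triangular decomposition.** -/
theorem triangular_of_one (hN : W.NoPhantoms X) (h : W.IsCK X π) (hT : C.IsTriangular π) :
    W.Triangular X := by
  intro ρ ρ' hρ hρ' a b hab γ hγ
  apply of_eq_zero
  have e1 : CorrRing.of C X (C.comp (C.comp (ρ a) γ) (ρ' b)) =
      rg ρ' b * CorrRing.of C X γ * rg ρ a := by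
    rw [CorrRing.of_comp, CorrRing.of_comp, ← mul_assoc]
    rfl
  have hs := sys_of h
  have e2 : rg ρ' b * CorrRing.of C X γ * rg ρ a =
      ∑ c ∈ Finset.range (2 * X.dim + 1), ∑ d ∈ Finset.range (2 * X.dim + 1),
        rg ρ' b * rg π c * CorrRing.of C X γ * rg π d * rg ρ a := by
    have e3 : rg ρ' b * CorrRing.of C X γ * rg ρ a =
        rg ρ' b * (∑ c ∈ Finset.range (2 * X.dim + 1), rg π c) * CorrRing.of C X γ *
          (∑ d ∈ Finset.range (2 * X.dim + 1), rg π d) * rg ρ a := by
      rw [hs.sum, mul_one, mul_one]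
    rw [e3]
    simp only [Finset.mul_sum, Finset.sum_mul]
    rw [Finset.sum_comm]
  rw [e1, e2]
  refine Finset.sum_eq_zero fun c _ => Finset.sum_eq_zero fun d _ => ?_
  by_cases hc : c < b
  · have h1 : rg ρ' b * rg π c = 0 := by
      have h2 := (two_of hN h hT hρ' hc).1
      rw [rg, rg, CorrRing.of_mul, h2, map_zero]
    rw [h1, zero_mul, zero_mul, zero_mul]
  by_cases hd : a < d
  · have h1 : rg π d * rg ρ a = 0 := by
      have h2 := (two_of hN h hT hρ hd).2
      rw [rg, rg, CorrRing.of_mul, h2, map_zero]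
    rw [mul_assoc _ (rg π d), h1, mul_zero]
  have h1 : rg π c * CorrRing.of C X γ * rg π d = 0 := low_of hT hγ d c (by omega)
  have h2 : rg ρ' b * rg π c * CorrRing.of C X γ * rg π d * rg ρ a =
      rg ρ' b * (rg π c * CorrRing.of C X γ * rg π d) * rg ρ a := by simp only [mul_assoc]
  rw [h2, h1, mul_zero, zero_mul]

theorem conjugate_of_one (hN : W.NoPhantoms X) (h : W.IsCK X π) (hT : C.IsTriangular π)
    (h' : W.IsCK X π') : Conjugate W π π' := by
  have hT' : C.IsTriangular π' := fun a b hab γ hγ =>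
    triangular_of_one hN h hT π' π' h' h' a b hab γ hγ
  have h1 := (sys_of h).conj (sys_of h') (blocks_zero_ring hN h hT h')
    (blocks_zero_ring hN h' hT' h)
  set φ : C.CH (X.prod X) := ∑ j ∈ Finset.range (2 * X.dim + 1), C.comp (π j) (π' j) with hφ
  set ψ : C.CH (X.prod X) := ∑ j ∈ Finset.range (2 * X.dim + 1), C.comp (π' j) (π j) with hψ
  have e1 : CorrRing.of C X φ = ∑ j ∈ Finset.range (2 * X.dim + 1), rg π' j * rg π j := by
    rw [hφ, map_sum]
    rfl
  have e2 : CorrRing.of C X ψ = ∑ j ∈ Finset.range (2 * X.dim + 1), rg π j * rg π' j := by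
    rw [hψ, map_sum]
    rfl
  rw [← e1, ← e2] at h1
  obtain ⟨h2, h3, h4⟩ := h1
  refine ⟨φ, Submodule.sum_mem _ fun j _ => comp_mem0 (h.mem j) (h'.mem j), ψ,
    Submodule.sum_mem _ fun j _ => comp_mem0 (h'.mem j) (h.mem j), ?_, ?_, ?_, ?_⟩
  · apply of_inj
    rw [CorrRing.of_comp, CorrRing.of_one]
    exact h3
  · apply of_inj
    rw [CorrRing.of_comp, CorrRing.of_one]
    exact h2
  · intro a
    refine gr_induction (W.isInternal X) (p := fun a => W.act φ a = a) ?_ ?_ a
    · intro l a ha
      rw [hφ, W.act_sum, LinearMap.sum_apply]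
      have h5 : ∀ j, W.act (C.comp (π j) (π' j)) a = if l = j then a else 0 := by
        intro j
        rw [act_comp0 (h'.mem j), h.proj j l a ha]
        split_ifs with hl
        · rw [h'.proj j l a ha, if_pos hl]
        · rw [map_zero]
      rw [Finset.sum_congr rfl fun j _ => h5 j, Finset.sum_ite_eq]
      by_cases hl : l < 2 * X.dim + 1
      · rw [if_pos (Finset.mem_range.2 hl)]
      · rw [if_neg (fun h6 => hl (Finset.mem_range.1 h6))]
        rw [W.gr_eq_bot X l (by omega), Submodule.mem_bot] at ha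
        exact ha.symm
    · intro a b ha hb
      rw [map_add, ha, hb]
  · intro j
    apply of_inj
    rw [CorrRing.of_comp, CorrRing.of_comp]
    exact h4 j

/-- The decomposition with the idempotent `φ` moved from degree `s` to degree `t`. -/
noncomputable def moveCK (π : ℕ → C.CH (X.prod X)) (φ : C.CH (X.prod X)) (s t : ℕ) (j : ℕ) :
    C.CH (X.prod X) :=
  π j + ((if j = t then (1 : ℚ) else 0) - (if j = s then (1 : ℚ) else 0)) • φ

lemma move_isCK (h : W.IsCK X π) {φ : C.CH (X.prod X)}
    (hφ : φ ∈ C.gr (X.prod X) X.dim) (h0 : W.act φ = 0) {s t : ℕ} (hst : s ≠ t)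
    (hs : C.comp (π s) φ = φ) (hs' : C.comp φ (π s) = φ) (hφφ : C.comp φ φ = φ)
    (hs2 : s ≤ 2 * X.dim) (ht2 : t ≤ 2 * X.dim) : W.IsCK X (moveCK π φ s t) := by
  have h1 : ∀ i, C.comp (π i) φ = if i = s then φ else 0 := by
    intro i
    conv_lhs => rw [← hs]
    rw [← C.comp_assoc, h.comp_eq]
    split_ifs with hi
    · rw [hi, hs]
    · exact C.zero_comp _
  have h2 : ∀ j, C.comp φ (π j) = if j = s then φ else 0 := by
    intro j
    conv_lhs => rw [← hs']
    rw [C.comp_assoc, h.comp_eq]
    by_cases hj : s = j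
    · rw [if_pos hj, if_pos hj.symm, hs']
    · rw [if_neg hj, if_neg (Ne.symm hj), C.comp_zero]
  have key : ∀ i j, C.comp (moveCK π φ s t i) (moveCK π φ s t j) =
      if i = j then moveCK π φ s t i else 0 := by
    intro i j
    rw [moveCK, moveCK, C.comp_add, C.add_comp, C.add_comp, C.comp_smul, C.smul_comp,
      C.comp_smul, C.smul_comp, h1, h2, hφφ, h.comp_eq]
    by_cases hij : i = j
    · subst hij
      by_cases his : i = s
      · subst his
        simp [hst]
      · by_cases hit : i = t
        · subst hit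
          simp [his]
        · simp [his, hit]
    · by_cases his : i = s
      · subst his
        by_cases hjt : j = t
        · subst hjt
          simp [hst, Ne.symm hst]
        · simp [hij, hjt, Ne.symm hij]
      · by_cases hjt : j = t
        · subst hjt
          simp [hij, his]
        · by_cases hjs : j = s
          · subst hjs
            by_cases hit : i = t
            · subst hit
              simp [hij, Ne.symm hij]
            · simp [hij, hit]
          · simp [hij, his, hjt, hjs]
  refine ⟨fun j => ?_, fun j => ?_, fun i j hij => ?_, ?_, fun j => ?_⟩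
  · exact Submodule.add_mem _ (h.mem j) (Submodule.smul_mem _ _ hφ)
  · rw [key, if_pos rfl]
  · rw [key, if_neg hij]
  · unfold moveCK
    rw [Finset.sum_add_distrib, h.sum, ← Finset.sum_smul, Finset.sum_sub_distrib,
      Finset.sum_ite_eq', Finset.sum_ite_eq', if_pos (Finset.mem_range.2 (by omega)),
      if_pos (Finset.mem_range.2 (by omega)), sub_self, zero_smul, add_zero]
  · intro l a ha
    rw [moveCK, W.act_add, W.act_smul, h0, smul_zero, add_zero]
    exact h.proj j l a ha

/-- The vanishing of all `Hom(h^a, h^b)`, `a < b`, excludes phantoms in positive dimension. -/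
theorem noPhantoms_of_triangular (hd : 1 ≤ X.dim) (hCK : W.HasCK X) (hT : W.Triangular X) :
    W.NoPhantoms X := by
  intro e he hee h0
  obtain ⟨π, h⟩ := hCK
  have hTπ : C.IsTriangular π := fun a b hab γ hγ => hT π π h h a b hab γ hγ
  have h0' : W.act e = 0 := LinearMap.ext h0
  have hblock : ∀ c, C.comp (C.comp (π c) e) (π c) = 0 := by
    intro c
    by_cases hc : 2 * X.dim < c
    · rw [h.eq_zero hc, C.comp_zero]
    set φ := C.comp (C.comp (π c) e) (π c) with hφ
    have hm : φ ∈ C.gr (X.prod X) X.dim := block_mem h he c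
    have hz : W.act φ = 0 := by
      apply LinearMap.ext
      intro x
      rw [hφ, act_comp0 (h.mem c), act_comp0 he, h0', LinearMap.zero_apply, map_zero,
        LinearMap.zero_apply]
    have hs : C.comp (π c) φ = φ := by
      rw [hφ, ← C.comp_assoc, ← C.comp_assoc, h.idem]
    have hs' : C.comp φ (π c) = φ := by
      rw [hφ, C.comp_assoc, h.idem]
    have hφφ : C.comp φ φ = φ := block_of h hTπ he hee c
    by_cases hc2 : c < 2 * X.dim
    · have hm' := move_isCK h hm hz (s := c) (t := 2 * X.dim) (by omega) hs hs' hφφ (by omega)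
        le_rfl
      have h1 := hT.comp_eq_zero h hm' hc2
      rw [moveCK, if_pos rfl, if_neg (by omega), sub_zero, one_smul, C.comp_add,
        h.orth c _ (by omega), zero_add, hs] at h1
      exact h1
    · have hm' := move_isCK h hm hz (s := c) (t := 0) (by omega) hs hs' hφφ (by omega)
        (Nat.zero_le _)
      have h1 := hT.comp_eq_zero hm' h (a := 0) (b := c) (by omega)
      rw [moveCK, if_pos rfl, if_neg (by omega), sub_zero, one_smul, C.add_comp,
        h.orth 0 c (by omega), zero_add, hs'] at h1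
      exact h1
  apply of_eq_zero
  refine (sys_of h).eq_zero_of_blocks (low_of hTπ he) ?_ ?_
  · rw [CorrRing.of_mul, hee]
  · intro c
    have h1 := congrArg (CorrRing.of C X) (hblock c)
    rw [map_zero, CorrRing.of_comp, CorrRing.of_comp, ← mul_assoc] at h1
    exact h1

/-! ### products -/

lemma opL_idem {w : C.CH (Y.prod Y)} (hw : C.comp w w = w) :
    C.comp (C.opL X w) (C.opL X w) = C.opL X w := by
  rw [C.opL_eq, C.comp_tensor, C.comp_diagC, hw]

lemma act_opL_zero {w : C.CH (Y.prod Y)} (hw : w ∈ C.gr (Y.prod Y) Y.dim) (h0 : W.act w = 0) :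
    W.act (C.opL X w) = 0 := by
  apply LinearMap.ext
  intro c
  refine W.kunneth_induction (p := fun c => W.act (C.opL X w) c = (0 : W.H (X.prod Y) →ₗ[W.K] _) c)
    ?_ ?_ c
  · intro a b ha hb
    rw [map_add, map_add, ha, hb]
  · intro p q a ha b hb
    rw [W.act_opL hw ha, h0, LinearMap.zero_apply, map_zero, mul_zero, LinearMap.zero_apply]

/-- Varieties without phantoms: from a product to a factor. -/
theorem noPhantoms_of_prod (hP : C.Polarized) (Y : 𝒱.Obj)
    (hN : W.NoPhantoms (Y.prod (X.prod X))) : W.NoPhantoms X := by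
  intro e he hee h0
  have h0' : W.act e = 0 := LinearMap.ext h0
  have h1 : C.opL Y (C.opL X e) = 0 := by
    refine hN _ (C.opL_mem (C.opL_mem he)) (opL_idem (opL_idem hee)) ?_
    intro x
    rw [act_opL_zero (C.opL_mem he) (act_opL_zero he h0'), LinearMap.zero_apply]
  obtain ⟨D, hD, hdeg⟩ := hP Y
  have h2 := C.act_opL_ext (C.opL X e) (D ^ Y.dim) (C.diagC X)
  rw [h1, C.act_zero, LinearMap.zero_apply, C.act_opL, C.diagC_comp] at h2
  have h3 := C.act_ext (D ^ Y.dim) e 1
  rw [← h2, C.act_zero, LinearMap.zero_apply, one_mul] at h3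
  exact (smul_eq_zero.1 h3.symm).resolve_left hdeg

end Pool.Agent.Run7.h192.Murre
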