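import Pool.Agent.Run7.h192.Murre.Trunc
import Pool.Agent.Run7.h192.Murre.Geo
import Pool.Agent.Run7.h192.Murre.FDefs

/-!
# Graphs, direct factors
-/

set_option autoImplicit false

open CategoryTheory CategoryTheory.Limits AlgebraicGeometry Finset
open Pool.Agent.H914 Pool.Agent.H914.VarClass Pool.Agent.H914.VarClass.Obj Pool.Agent.R903
open Pool.Agent.R903.ChowTheory

universe u v w

namespace Pool.Agent.Run7.h192.Murre

variable {k : Type u} [Field k] {𝒱 : VarClass k} {C : ChowTheory.{u, v} 𝒱}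
  {W : WeilTheory.{u, v, w} C} {X Y Z P : 𝒱.Obj}

/-! ### composition with spans -/

lemma comp_span_id (a : P ⟶ X) (ω : C.CH P) (γ : C.CH (P.prod Z)) :
    C.comp (C.span a (𝟙 P) ω) γ = C.push (prodMap a (𝟙 Z)) (C.pull (fst P Z) ω * γ) := by
  have h1 : C.pull (p12 X P Z) (C.push (lift a (𝟙 P)) ω) =
      C.push (lift (fst P Z ≫ a) (𝟙 _)) (C.pull (fst P Z) ω) := by
    refine C.base_change (T := Z) (lift a (𝟙 P)) (lift (fst P Z ≫ a) (𝟙 _)) (fst P Z) (p12 X P Z)
      (snd X _ ≫ snd P Z) ?_ isIso_assoc ?_ ω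
    · apply hom_ext_prod <;> simp
    · have : lift (fst P Z ≫ a) (𝟙 (P.prod Z)) ≫ snd X (P.prod Z) ≫ snd P Z = snd P Z := by simp
      rw [this]; exact isIso_lift_fst_snd
  rw [ChowTheory.comp, ChowTheory.span, h1, ← C.push_mul, ← C.push_comp, ← C.pull_comp]
  have e1 : lift (fst P Z ≫ a) (𝟙 (P.prod Z)) ≫ p13 X P Z = prodMap a (𝟙 Z) := by
    apply hom_ext_prod <;> simp
  rw [e1, lift_snd, C.pull_id]

lemma comp_span (f : Y ⟶ Z) (ω : C.CH Y) (γ : C.CH (X.prod Y)) :
    C.comp γ (C.span (𝟙 Y) f ω) = C.push (prodMap (𝟙 X) f) (γ * C.pull (snd X Y) ω) := by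
  have h1 : C.pull (snd X (Y.prod Z)) (C.push (lift (𝟙 Y) f) ω) =
      C.push (lift (fst X Y) (snd X Y ≫ lift (𝟙 Y) f)) (C.pull (snd X Y) ω) := by
    refine C.base_change (T := X) (lift (𝟙 Y) f) (lift (fst X Y) (snd X Y ≫ lift (𝟙 Y) f))
      (snd X Y) (snd X (Y.prod Z)) (fst X _) ?_ isIso_swap ?_ ω
    · simp
    · rw [lift_fst]; exact isIso_swap
  rw [ChowTheory.comp, ChowTheory.span, h1, ← C.mul_push, ← C.push_comp, ← C.pull_comp]
  have e1 : lift (fst X Y) (snd X Y ≫ lift (𝟙 Y) f) ≫ p13 X Y Z = prodMap (𝟙 X) f := by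
    apply hom_ext_prod <;> simp
  have e2 : lift (fst X Y) (snd X Y ≫ lift (𝟙 Y) f) ≫ p12 X Y Z = 𝟙 _ := by
    apply hom_ext_prod <;> simp
  rw [e1, e2, C.pull_id]

lemma comp_factor (f : Z ⟶ X) (ω ω' : C.CH Z) :
    C.comp (C.span f (𝟙 Z) ω) (C.span (𝟙 Z) f ω') = C.push (diag X) (C.push f (ω * ω')) := by
  rw [comp_span_id]
  have h1 : C.pull (fst Z X) ω * C.span (𝟙 Z) f ω' = C.push (lift (𝟙 Z) f) (ω * ω') := by
    rw [ChowTheory.span, ← C.mul_push, ← C.pull_comp, lift_fst, C.pull_id]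
  have h2 : lift (𝟙 Z) f ≫ prodMap f (𝟙 X) = f ≫ diag X := by
    apply hom_ext_prod <;> simp
  rw [h1, ← C.push_comp, h2, C.push_comp]

/-! ### graphs -/

lemma comp_graph (f : X ⟶ Y) (f' : Y ⟶ Z) :
    C.comp (C.graph f) (C.graph f') = C.graph (f ≫ f') := by
  rw [ChowTheory.graph, ChowTheory.graph, comp_span, map_one, mul_one, ChowTheory.span,
    ← C.push_comp, ChowTheory.graph, ChowTheory.span]
  congr 1
  have : lift (𝟙 X) f ≫ prodMap (𝟙 X) f' = lift (𝟙 X) (f ≫ f') := by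
    apply hom_ext_prod <;> simp
  rw [this]

lemma transp_eq_push (γ : C.CH (X.prod Y)) : C.transp γ = C.push (swap X Y) γ := by
  apply C.push_injective (swap Y X)
  rw [ChowTheory.transp, C.push_pull_iso, ← C.push_comp]
  have : swap X Y ≫ swap Y X = 𝟙 _ := by apply hom_ext_prod <;> simp
  rw [this, C.push_id]

lemma push_one_iso (f f' : X ⟶ X) (h1 : f ≫ f' = 𝟙 X) (h2 : f' ≫ f = 𝟙 X) : C.push f 1 = 1 := by
  haveI : IsIso (prodMap f (𝟙 X)) := by
    refine isIso_of (prodMap f' (𝟙 X)) ?_ ?_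
    · apply hom_ext_prod <;> simp [h1]
    · apply hom_ext_prod <;> simp [h2]
  have h3 : C.push (prodMap f (𝟙 X)) 1 = 1 := by
    have := C.push_pull_iso (prodMap f (𝟙 X)) 1
    rwa [map_one] at this
  have h4 := C.pull_fst_push (Y := X) f 1
  rw [map_one (C.pull (fst X X)), h3] at h4
  have h5 := congrArg (C.pull (diag X)) h4
  rwa [← C.pull_comp, map_one (C.pull (diag X)), diag_fst, C.pull_id] at h5

lemma transp_graph (f f' : X ⟶ X) (h1 : f ≫ f' = 𝟙 X) (h2 : f' ≫ f = 𝟙 X) :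
    C.transp (C.graph f) = C.graph f' := by
  rw [transp_eq_push, ChowTheory.graph, ChowTheory.graph, ChowTheory.span, ChowTheory.span,
    ← C.push_comp]
  have e1 : lift (𝟙 X) f ≫ swap X X = f ≫ lift (𝟙 X) f' := by
    apply hom_ext_prod <;> simp [h1]
  rw [e1, C.push_comp, push_one_iso f f' h1 h2]

/-- A group of automorphisms acts by isometries. -/
theorem isIsometryGroup_of_action {G : Type*} [Group G] (f : G → (X ⟶ X)) (h1 : f 1 = 𝟙 X)
    (hmul : ∀ a b, f (a * b) = f a ≫ f b) : IsIsometryGroup C X fun a => graphClass C (f a) where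
  mem a := C.graph_mem _
  one := by rw [h1]; rfl
  mul a b := by rw [hmul]; exact comp_graph _ _
  transp a := transp_graph _ _ (by rw [← hmul, mul_inv_cancel, h1])
    (by rw [← hmul, inv_mul_cancel, h1])

/-- The trivial group. -/
lemma isIsometryGroup_unit : IsIsometryGroup C X (fun _ : Unit => C.diagC X) where
  mem _ := C.diagC_mem X
  one := rfl
  mul _ _ := C.comp_diagC _
  transp _ := C.transp_diagC X

/-! ### direct factors -/

variable {p q : ℕ} {α : C.CH (X.prod Z)} {β : C.CH (Z.prod X)}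

lemma Factor.act_act (F : Factor C X Z p q α β) (a : W.H X) : W.act β (W.act α a) = a := by
  rw [← W.act_comp _ F.hβ, F.comp, W.act_diagC]

lemma Factor.mem_mid (F : Factor C X Z p q α β) {γ : C.CH (X.prod X)}
    (hγ : γ ∈ C.gr (X.prod X) X.dim) : C.comp (C.comp β γ) α ∈ C.gr (Z.prod Z) Z.dim :=
  C.comp_mem (C.comp_mem F.hβ hγ rfl) F.hα (by have := F.deg; omega)

theorem Factor.splitting (F : Factor C X Z p q α β) {J j : ℕ} (hJ : j + 2 * p = J + 2 * X.dim)
    {t : C.CH (Z.prod Z)} (ht : IsSplitting W Z J t) :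
    IsSplitting W X j (C.comp (C.comp α t) β) where
  mem := C.comp_mem (C.comp_mem F.hα ht.mem rfl) F.hβ (by have := F.deg; omega)
  idem := by
    have h1 : C.comp β α ∈ C.gr (Z.prod Z) Z.dim :=
      C.comp_mem F.hβ F.hα (by have := F.deg; omega)
    have h2 := ht.inv _ h1
    calc C.comp (C.comp (C.comp α t) β) (C.comp (C.comp α t) β)
        = C.comp (C.comp α (C.comp (C.comp t (C.comp β α)) t)) β := by
          simp only [C.comp_assoc]
      _ = C.comp (C.comp α (C.comp t (C.comp β α))) β := by rw [← h2]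
      _ = C.comp (C.comp α t) (C.comp β (C.comp α β)) := by simp only [C.comp_assoc]
      _ = _ := by rw [F.comp, C.comp_diagC]
  inv γ hγ := by
    have h2 := ht.inv _ (F.mem_mid hγ)
    symm
    calc C.comp (C.comp (C.comp (C.comp α t) β) γ) (C.comp (C.comp α t) β)
        = C.comp (C.comp α (C.comp (C.comp t (C.comp (C.comp β γ) α)) t)) β := by
          simp only [C.comp_assoc]
      _ = C.comp (C.comp α (C.comp t (C.comp (C.comp β γ) α))) β := by rw [← h2]
      _ = C.comp (C.comp (C.comp α t) β) (C.comp γ (C.comp α β)) := by simp only [C.comp_assoc]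
      _ = _ := by rw [F.comp, C.comp_diagC]
  proj l a ha := by
    rw [W.act_comp _ F.hβ, W.act_comp _ ht.mem]
    have h1 := act_shift W F.hα ha
    by_cases h0 : (l : ℤ) + 2 * ((p : ℤ) - X.dim) < 0
    · rw [grZ_of_neg h0, Submodule.mem_bot] at h1
      have h2 := F.act_act a
      rw [h1, map_zero] at h2
      rw [← h2]
      simp
    · obtain ⟨m, hm⟩ := Int.eq_ofNat_of_zero_le (not_lt.1 h0)
      rw [hm] at h1
      change _ ∈ grZ (W.gr Z) (m : ℤ) at h1
      rw [grZ_natCast] at h1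
      rw [ht.proj m _ h1]
      by_cases hl : l ≤ j
      · rw [if_pos hl, if_pos (by omega), F.act_act]
      · rw [if_neg hl, if_neg (by omega), map_zero]

/-- Direct factors of varieties with a triangular decomposition. -/
theorem Factor.splitting_of_triangular (F : Factor C X Z p q α β)
    (h : ∃ π : ℕ → C.CH (Z.prod Z), W.IsCK Z π ∧ C.IsTriangular π) (j : ℕ) :
    ∃ t, IsSplitting W X j t := by
  obtain ⟨π, hπ, hT⟩ := h
  by_cases hJ : 2 * X.dim ≤ j + 2 * p
  · obtain ⟨t, ht⟩ := Murre.splitting_of_triangular hπ hT (j + 2 * p - 2 * X.dim)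
    exact ⟨_, F.splitting (by omega) ht⟩
  · refine ⟨0, Submodule.zero_mem _, C.zero_comp _, fun γ _ => ?_, fun l a ha => ?_⟩
    · rw [C.zero_comp, C.zero_comp]
    · rw [W.act_zero, LinearMap.zero_apply]
      split_ifs with hl
      · have h1 := act_shift W F.hα ha
        rw [grZ_of_neg (by omega), Submodule.mem_bot] at h1
        have h2 := F.act_act a
        rwa [h1, map_zero] at h2
      · rfl

theorem Factor.noPhantoms (F : Factor C X Z p q α β) (hN : W.NoPhantoms Z) : W.NoPhantoms X := by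
  intro e he hee h0
  have h0' : W.act e = 0 := LinearMap.ext h0
  have h1 : C.comp (C.comp β e) α = 0 := by
    refine hN _ (F.mem_mid he) ?_ ?_
    · calc C.comp (C.comp (C.comp β e) α) (C.comp (C.comp β e) α)
          = C.comp (C.comp β (C.comp e (C.comp (C.comp α β) e))) α := by
            simp only [C.comp_assoc]
        _ = _ := by rw [F.comp, C.diagC_comp, hee]
    · intro x
      rw [W.act_comp _ F.hα, W.act_comp _ he, h0', LinearMap.zero_apply, map_zero]
  calc e = C.comp (C.comp α β) (C.comp e (C.comp α β)) := by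
        rw [F.comp, C.comp_diagC, C.diagC_comp]
    _ = C.comp (C.comp α (C.comp (C.comp β e) α)) β := by simp only [C.comp_assoc]
    _ = 0 := by rw [h1, C.comp_zero, C.zero_comp]

lemma exists_factor_of_dominates (h : Dominates C Z X) :
    ∃ q α β, Factor C X Z X.dim q α β := by
  obtain ⟨f, e, y, c, he, hy, hc, hf⟩ := h
  refine ⟨e + X.dim, C.span f (𝟙 Z) 1, C.span (𝟙 Z) f (c⁻¹ • y),
    C.span_mem _ _ (C.one_mem Z) (by omega),
    C.span_mem _ _ (Submodule.smul_mem _ _ hy) (by omega), by omega, ?_⟩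
  rw [comp_factor, one_mul, map_smul, hf, smul_smul, inv_mul_cancel₀ hc, one_smul]
  rfl

/-- The twists of `h(X)` in `h(Y × X)`. -/
lemma exists_factor_prod (hP : C.Polarized) (X Y : 𝒱.Obj) {i : ℕ} (hi : i ≤ Y.dim) :
    ∃ q α β, Factor C X (Y.prod X) (i + X.dim) q α β := by
  obtain ⟨D, hD, hdeg⟩ := hP Y
  have hpow : ∀ m, D ^ m ∈ C.gr Y m := by
    intro m
    induction m with
    | zero => rw [pow_zero]; exact C.one_mem Y
    | succ m ih => rw [pow_succ]; exact C.mul_mem ih hD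
  refine ⟨(Y.dim - i) + X.dim, C.span (snd Y X) (𝟙 _) (C.pull (fst Y X) (D ^ i)),
    C.span (𝟙 _) (snd Y X) (C.pull (fst Y X) ((C.deg Y (D ^ Y.dim))⁻¹ • D ^ (Y.dim - i))),
    C.span_mem _ _ (C.pull_mem _ (hpow i)) (by omega),
    C.span_mem _ _ (C.pull_mem _ (Submodule.smul_mem _ _ (hpow _))) (by omega),
    by rw [dim_prod]; omega, ?_⟩
  rw [comp_factor, ← C.pull_mul, mul_smul_comm, ← pow_add, Nat.add_sub_cancel' hi,
    C.push_snd_pull_fst, map_smul, smul_eq_mul, inv_mul_cancel₀ hdeg, map_one]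
  rfl

/-- **From the middle splitting of `Y × X` to a self-dual triangular decomposition of `X`.** -/
theorem splitting_of_middle (hP : C.Polarized) (X Y : 𝒱.Obj) (hd : X.dim ≤ Y.dim)
    {t : C.CH ((Y.prod X).prod (Y.prod X))} (ht : IsSplitting W (Y.prod X) (Y.prod X).dim t)
    {j : ℕ} (hj : j < X.dim) : ∃ t, IsSplitting W X j t := by
  have hN : (Y.prod X).dim = Y.dim + X.dim := by rw [dim_prod]
  by_cases hpar : (Y.dim + X.dim - j) % 2 = 0
  · obtain ⟨q, α, β, F⟩ := exists_factor_prod hP X Y (i := (Y.dim + X.dim - j) / 2) (by omega)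
    exact ⟨_, F.splitting (by omega) ht⟩
  · obtain ⟨q, α, β, F⟩ := exists_factor_prod hP X Y (i := (Y.dim + X.dim - 1 - j) / 2) (by omega)
    have h1 := isSplitting_of (W := W) (j := 2 * (Y.prod X).dim - 1 - (Y.prod X).dim)
      (inv_dual ht.toInv) (dual_proj (by omega) ht.proj)
    exact ⟨_, F.splitting (by omega) h1⟩

lemma exists_dim (hc : ∃ c : 𝒱.Obj, c.dim = 1) (m : ℕ) (hm : 1 ≤ m) : ∃ Y : 𝒱.Obj, Y.dim = m := by
  obtain ⟨c, hc⟩ := hc
  induction m with
  | zero => omega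
  | succ m ih =>
    by_cases hm' : m = 0
    · exact ⟨c, by rw [hc, hm']⟩
    · obtain ⟨Y, hY⟩ := ih (by omega)
      exact ⟨c.prod Y, by rw [dim_prod, hc, hY]; omega⟩

/-- self-dual decompositions without a group -/
theorem exists_selfDual' (h : ∀ j < X.dim, ∃ t, IsSplitting W X j t) :
    ∃ π : ℕ → C.CH (X.prod X), W.IsCK X π ∧ C.IsTriangular π ∧ SelfDual C π := by
  obtain ⟨π, h1, h2, h3, _⟩ := exists_selfDual (G := Unit) isIsometryGroup_unit h
  exact ⟨π, h1, h2, h3⟩

end Pool.Agent.Run7.h192.Murre
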