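import Pool.Agent.Run7.h192.Murre.Ring

/-!
# Sums of grading operators
-/

set_option autoImplicit false

namespace Pool.Agent.Run7.h192.Murre

open Finset Polynomial

variable {R : Type*} [Ring R] [Algebra ℚ R]

/-- A system of idempotents for which all elements of the ring are low. -/
structure Full (P : ℕ → R) (n : ℕ) : Prop where
  sys : Sys P (n + 1)
  low : ∀ T, Low P T

/-- The grading operator. -/
noncomputable def gop (P : ℕ → R) (n : ℕ) : R := ∑ j ∈ range (n + 1), (j : ℚ) • P j

/-- The truncations. -/
noncomputable def tr (P : ℕ → R) (j : ℕ) : R := ∑ a ∈ range (j + 1), P a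

variable {P P' Q Q' : ℕ → R} {n n' m : ℕ}

lemma Sys.mul_eq {N : ℕ} (h : Sys P N) (i j : ℕ) : P i * P j = if i = j then P i else 0 := by
  split_ifs with hij
  · rw [← hij, h.idem]
  · exact h.orth i j hij

lemma Sys.gop_mul (h : Sys P (n + 1)) (j : ℕ) : gop P n * P j = (j : ℚ) • P j := by
  rw [gop, Finset.sum_mul]
  simp only [smul_mul_assoc, h.mul_eq]
  by_cases hj : j < n + 1
  · rw [Finset.sum_eq_single j]
    · rw [if_pos rfl]
    · intro b _ hb
      rw [if_neg hb, smul_zero]
    · intro hc
      exact absurd (Finset.mem_range.2 hj) hc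
  · rw [h.zero j (not_lt.1 hj), smul_zero]
    refine Finset.sum_eq_zero fun b hb => ?_
    rw [Finset.mem_range] at hb
    rw [if_neg (by omega), smul_zero]

lemma Sys.mul_gop (h : Sys P (n + 1)) (j : ℕ) : P j * gop P n = (j : ℚ) • P j := by
  rw [gop, Finset.mul_sum]
  simp only [mul_smul_comm, h.mul_eq]
  by_cases hj : j < n + 1
  · rw [Finset.sum_eq_single j]
    · rw [if_pos rfl]
    · intro b _ hb
      rw [if_neg (Ne.symm hb), smul_zero]
    · intro hc
      exact absurd (Finset.mem_range.2 hj) hc
  · rw [h.zero j (not_lt.1 hj), smul_zero]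
    refine Finset.sum_eq_zero fun b hb => ?_
    split_ifs <;> rw [smul_zero]

lemma Sys.gop_tr (h : Sys P (n + 1)) (j : ℕ) :
    gop P n * tr P j = (j : ℚ) • tr P j - ∑ a ∈ range j, tr P a := by
  induction j with
  | zero => simp [tr, h.gop_mul]
  | succ j ih =>
    have h1 : tr P (j + 1) = tr P j + P (j + 1) := Finset.sum_range_succ _ _
    rw [h1, mul_add, ih, h.gop_mul, Finset.sum_range_succ]
    push_cast
    module

lemma Full.inv (h : Full P n) (j : ℕ) (T : R) : T * tr P j = tr P j * T * tr P j := by
  have key : ∀ a, a < j + 1 → T * P a = tr P j * T * P a := by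
    intro a ha
    have h1 : T * P a = ∑ b ∈ range (n + 1), P b * T * P a := by
      rw [← Finset.sum_mul, ← Finset.sum_mul, h.sys.sum, one_mul]
    have h2 : tr P j * T * P a = ∑ b ∈ range (j + 1), P b * T * P a := by
      rw [tr, Finset.sum_mul, Finset.sum_mul]
    have h3 : ∀ s : Finset ℕ, (∀ b ∉ s, P b * T * P a = 0) →
        ∑ b ∈ s, P b * T * P a = ∑ b ∈ range (n + 1) ∪ range (j + 1) ∪ s, P b * T * P a :=
      fun s hs => Finset.sum_subset Finset.subset_union_right fun b _ hb => hs b hb
    rw [h1, h2, Finset.sum_subset (Finset.subset_union_left (s₂ := range (j + 1))),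
      Finset.sum_subset (Finset.subset_union_right (s₁ := range (n + 1)))
        (s₁ := range (j + 1))]
    · intro b _ hb
      rw [Finset.mem_range] at hb
      exact h.low T a b (by omega)
    · intro b _ hb
      rw [Finset.mem_range] at hb
      rw [h.sys.zero b (by omega), zero_mul, zero_mul]
  have h2 : ∀ S : R, S * tr P j = ∑ a ∈ range (j + 1), S * P a := by
    intro S
    rw [tr, Finset.mul_sum]
  rw [h2, h2]
  exact Finset.sum_congr rfl fun a ha => key a (Finset.mem_range.1 ha)

lemma Full.tr_top (h : Full P n) : tr P n = 1 := h.sys.sum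

/-- The right ideals generated by the products of two truncations. -/
def jj (P P' : ℕ → R) (m : ℕ) : Submodule ℚ R :=
  Submodule.span ℚ {y | ∃ i j x, i + j < m ∧ y = tr P i * (tr P' j * x)}

lemma jj_mono {m m' : ℕ} (h : m ≤ m') : jj P P' m ≤ jj P P' m' := by
  refine Submodule.span_mono ?_
  rintro y ⟨i, j, x, hij, rfl⟩
  exact ⟨i, j, x, by omega, rfl⟩

lemma jj_zero : jj P P' 0 = ⊥ := by
  rw [jj, Submodule.span_eq_bot]
  rintro y ⟨i, j, x, hij, rfl⟩
  omega

lemma jj_top (h : Full P n) (h' : Full P' n') (x : R) : x ∈ jj P P' (n + n' + 1) := by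
  refine Submodule.subset_span ⟨n, n', x, by omega, ?_⟩
  rw [h.tr_top, h'.tr_top, one_mul, one_mul]

lemma jj_mul (h : Full P n) (h' : Full P' n') {y : R} (hy : y ∈ jj P P' m) (T : R) :
    T * y ∈ jj P P' m := by
  refine Submodule.span_induction (p := fun y _ => T * y ∈ jj P P' m) ?_ ?_ ?_ ?_ hy
  · rintro y ⟨i, j, x, hij, rfl⟩
    refine Submodule.subset_span ⟨i, j, T * tr P i * (tr P' j * x), hij, ?_⟩
    have h1 : T * (tr P i * (tr P' j * x)) = tr P i * T * tr P i * (tr P' j * x) := by
      rw [← h.inv i T]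
      simp only [mul_assoc]
    have h2 : T * tr P i * tr P' j = tr P' j * (T * tr P i) * tr P' j := h'.inv j (T * tr P i)
    calc T * (tr P i * (tr P' j * x)) = tr P i * (T * tr P i * tr P' j) * x := by
          rw [h1]; simp only [mul_assoc]
      _ = tr P i * (tr P' j * (T * tr P i) * tr P' j) * x := by rw [h2]
      _ = _ := by simp only [mul_assoc]
  · rw [mul_zero]; exact Submodule.zero_mem _
  · intro a b _ _ ha hb
    rw [mul_add]; exact Submodule.add_mem _ ha hb
  · intro c a _ ha
    rw [mul_smul_comm]; exact Submodule.smul_mem _ _ ha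

lemma jj_step (h : Full P n) (h' : Full P' n') {y : R} (hy : y ∈ jj P P' (m + 1)) :
    (gop P n + gop P' n') * y - (m : ℚ) • y ∈ jj P P' m := by
  refine Submodule.span_induction
    (p := fun y _ => (gop P n + gop P' n') * y - (m : ℚ) • y ∈ jj P P' m) ?_ ?_ ?_ ?_ hy
  · rintro y ⟨i, j, x, hij, rfl⟩
    by_cases hm : i + j < m
    · have h1 : tr P i * (tr P' j * x) ∈ jj P P' m := Submodule.subset_span ⟨i, j, x, hm, rfl⟩
      exact Submodule.sub_mem _ (jj_mul h h' h1 _) (Submodule.smul_mem _ _ h1)
    have hm' : m = i + j := by omega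
    subst hm'
    have h1 : gop P n * (tr P i * (tr P' j * x)) =
        (i : ℚ) • (tr P i * (tr P' j * x)) - ∑ a ∈ range i, tr P a * (tr P' j * x) := by
      rw [← mul_assoc, h.sys.gop_tr, sub_mul, smul_mul_assoc, Finset.sum_mul]
    have h2 : gop P' n' * (tr P i * (tr P' j * x)) =
        (j : ℚ) • (tr P i * (tr P' j * x)) -
          ∑ b ∈ range j, tr P i * (tr P' b * (tr P i * (tr P' j * x))) := by
      have h3 : tr P i * (tr P' j * x) = tr P' j * (tr P i * tr P' j * x) := by
        have h5 := h'.inv j (tr P i)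
        calc tr P i * (tr P' j * x) = tr P i * tr P' j * x := by rw [mul_assoc]
          _ = tr P' j * tr P i * tr P' j * x := by rw [h5]
          _ = _ := by simp only [mul_assoc]
      have h4 : ∀ b, tr P' b * (tr P i * tr P' j * x) =
          tr P i * (tr P' b * (tr P i * (tr P' j * x))) := by
        intro b
        have h6 := h.inv i (tr P' b)
        calc tr P' b * (tr P i * tr P' j * x) = tr P' b * tr P i * tr P' j * x := by
              simp only [mul_assoc]
          _ = tr P i * tr P' b * tr P i * tr P' j * x := by rw [h6]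
          _ = _ := by simp only [mul_assoc]
      conv_lhs => rw [h3]
      rw [← mul_assoc, h'.sys.gop_tr, sub_mul, smul_mul_assoc, Finset.sum_mul, ← h3]
      congr 1
      exact Finset.sum_congr rfl fun b _ => h4 b
    rw [add_mul, h1, h2]
    have h3 : (i : ℚ) • (tr P i * (tr P' j * x)) - ∑ a ∈ range i, tr P a * (tr P' j * x) +
        ((j : ℚ) • (tr P i * (tr P' j * x)) -
          ∑ b ∈ range j, tr P i * (tr P' b * (tr P i * (tr P' j * x)))) -
        ((i + j : ℕ) : ℚ) • (tr P i * (tr P' j * x)) =
        -(∑ a ∈ range i, tr P a * (tr P' j * x)) -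
          ∑ b ∈ range j, tr P i * (tr P' b * (tr P i * (tr P' j * x))) := by
      push_cast
      module
    rw [h3]
    refine Submodule.sub_mem _ (Submodule.neg_mem _ (Submodule.sum_mem _ fun a ha => ?_))
      (Submodule.sum_mem _ fun b hb => ?_)
    · rw [Finset.mem_range] at ha
      exact Submodule.subset_span ⟨a, j, x, by omega, rfl⟩
    · rw [Finset.mem_range] at hb
      exact Submodule.subset_span ⟨i, b, _, by omega, rfl⟩
  · rw [mul_zero, smul_zero, sub_zero]; exact Submodule.zero_mem _
  · intro a b _ _ ha hb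
    have : (gop P n + gop P' n') * (a + b) - (m : ℚ) • (a + b) =
        ((gop P n + gop P' n') * a - (m : ℚ) • a) + ((gop P n + gop P' n') * b - (m : ℚ) • b) := by
      rw [mul_add, smul_add]; abel
    rw [this]; exact Submodule.add_mem _ ha hb
  · intro c a _ ha
    have : (gop P n + gop P' n') * (c • a) - (m : ℚ) • (c • a) =
        c • ((gop P n + gop P' n') * a - (m : ℚ) • a) := by
      rw [mul_smul_comm, smul_sub, smul_comm c (m : ℚ) a]
    rw [this]; exact Submodule.smul_mem _ _ ha

/-! ### spectral projectors -/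

/-- spectral projectors of an element -/
noncomputable def spec (T : R) (N : ℕ) (s : ℕ) : R :=
  if s < N then aeval T (Lagrange.basis (range N) (fun i : ℕ => (i : ℚ)) s) else 0

lemma inj_cast (s : Set ℕ) : Set.InjOn (fun i : ℕ => (i : ℚ)) s :=
  fun a _ b _ h => by
    have h1 : (a : ℚ) = (b : ℚ) := h
    exact_mod_cast h1

lemma basis_mul {N s : ℕ} (hs : s < N) : ∃ c : ℚ[X],
    (X - C ((s : ℕ) : ℚ)) * Lagrange.basis (range N) (fun i : ℕ => (i : ℚ)) s =
      c * ∏ t ∈ range N, (X - C ((t : ℕ) : ℚ)) := by
  refine ⟨∏ t ∈ (range N).erase s, C (((s : ℚ) - (t : ℚ))⁻¹), ?_⟩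
  rw [Lagrange.basis, ← Finset.mul_prod_erase (range N) _ (Finset.mem_range.2 hs)]
  simp only [Lagrange.basisDivisor]
  rw [Finset.prod_mul_distrib]
  ring

lemma spec_sys {T : R} {N : ℕ} (hN : 0 < N)
    (hT : aeval T (∏ t ∈ range N, (X - C ((t : ℕ) : ℚ))) = 0) :
    Sys (spec T N) N ∧ ∀ s, T * spec T N s = (s : ℚ) • spec T N s := by
  have hsum : ∑ j ∈ range N, spec T N j = 1 := by
    have h1 : ∑ j ∈ range N, spec T N j =
        aeval T (∑ j ∈ range N, Lagrange.basis (range N) (fun i : ℕ => (i : ℚ)) j) := by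
      rw [map_sum]
      refine Finset.sum_congr rfl fun j hj => ?_
      rw [spec, if_pos (Finset.mem_range.1 hj)]
    rw [h1, Lagrange.sum_basis (inj_cast _) ⟨0, Finset.mem_range.2 hN⟩, map_one]
  have heig : ∀ s, T * spec T N s = (s : ℚ) • spec T N s := by
    intro s
    by_cases hs : s < N
    · obtain ⟨c, hc⟩ := basis_mul hs
      have h1 := congrArg (aeval T) hc
      rw [map_mul, map_mul, hT, mul_zero, map_sub, aeval_X, aeval_C, sub_mul, sub_eq_zero,
        ← Algebra.smul_def] at h1
      rw [spec, if_pos hs]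
      exact h1
    · rw [spec, if_neg hs, mul_zero, smul_zero]
  have hcomm : ∀ s, spec T N s * T = T * spec T N s := by
    intro s
    rw [spec]
    split_ifs
    · have h1 : ∀ p : ℚ[X], aeval T p * T = T * aeval T p := by
        intro p
        have h2 : aeval T (p * X) = aeval T (X * p) := by rw [mul_comm]
        rwa [map_mul, map_mul, aeval_X] at h2
      exact h1 _
    · simp
  have horth : ∀ i j, i ≠ j → spec T N i * spec T N j = 0 := by
    intro i j hij
    have h1 : spec T N i * (T * spec T N j) = (j : ℚ) • (spec T N i * spec T N j) := by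
      rw [heig, mul_smul_comm]
    have h2 : spec T N i * (T * spec T N j) = (i : ℚ) • (spec T N i * spec T N j) := by
      rw [← mul_assoc, hcomm, heig, smul_mul_assoc]
    rw [h1] at h2
    have h3 : ((j : ℚ) - (i : ℚ)) • (spec T N i * spec T N j) = 0 := by
      rw [sub_smul, h2, sub_self]
    refine (smul_eq_zero.1 h3).resolve_left ?_
    intro h4
    exact hij (by exact_mod_cast (sub_eq_zero.1 h4).symm)
  have hzero : ∀ j, N ≤ j → spec T N j = 0 := fun j hj => if_neg (not_lt.2 hj)
  refine ⟨⟨fun j => ?_, horth, hsum, hzero⟩, heig⟩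
  by_cases hj : j < N
  · have h1 : spec T N j * ∑ i ∈ range N, spec T N i = spec T N j := by rw [hsum, mul_one]
    rw [Finset.mul_sum, Finset.sum_eq_single j] at h1
    · exact h1
    · intro i _ hi
      exact horth j i (Ne.symm hi)
    · intro hc
      exact absurd (Finset.mem_range.2 hj) hc
  · rw [hzero j (not_lt.1 hj), mul_zero]

lemma gop_of_eig {T : R} (h : Sys Q (n + 1)) (hT : ∀ s, T * Q s = (s : ℚ) • Q s) :
    gop Q n = T := by
  rw [gop]
  simp only [← hT]
  rw [← Finset.mul_sum, h.sum, mul_one]

/-- **The sum of two grading operators is a grading operator.** -/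
theorem full_add (h : Full P n) (h' : Full P' n') :
    ∃ Q : ℕ → R, Full Q (n + n') ∧ gop Q (n + n') = gop P n + gop P' n' := by
  set T := gop P n + gop P' n' with hTdef
  have key : ∀ m, ∀ y ∈ jj P P' m, aeval T (∏ t ∈ range m, (X - C ((t : ℕ) : ℚ))) * y = 0 := by
    intro m
    induction m with
    | zero =>
      intro y hy
      rw [jj_zero, Submodule.mem_bot] at hy
      rw [hy, mul_zero]
    | succ m ih =>
      intro y hy
      have h1 := ih _ (jj_step h h' hy)
      rw [Finset.prod_range_succ, map_mul, mul_assoc, map_sub, aeval_X, aeval_C, sub_mul,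
        ← Algebra.smul_def]
      exact h1
  have hT : aeval T (∏ t ∈ range (n + n' + 1), (X - C ((t : ℕ) : ℚ))) = 0 := by
    have h1 := key (n + n' + 1) 1 (jj_top h h' 1)
    rwa [mul_one] at h1
  obtain ⟨hS, heig⟩ := spec_sys (Nat.succ_pos _) hT
  refine ⟨spec T (n + n' + 1), ⟨hS, ?_⟩, gop_of_eig hS heig⟩
  intro U a b hab
  have hcomm : ∀ s, spec T (n + n' + 1) s * T = (s : ℚ) • spec T (n + n' + 1) s := by
    intro s
    have h1 := hS.mul_gop (n := n + n') s
    rwa [gop_of_eig hS heig] at h1
  -- `Q a` lies in `jj (a + 1)`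
  have hmem : spec T (n + n' + 1) a ∈ jj P P' (a + 1) := by
    by_cases ha : n + n' + 1 ≤ a
    · rw [hS.zero a ha]; exact Submodule.zero_mem _
    have h1 : ∀ k, a + k ≤ n + n' → spec T (n + n' + 1) a ∈ jj P P' (n + n' + 1 - k) := by
      intro k
      induction k with
      | zero => intro _; exact jj_top h h' _
      | succ k ih =>
        intro hk
        have h2 := ih (by omega)
        have h3 : n + n' + 1 - k = (n + n' + 1 - (k + 1)) + 1 := by omega
        rw [h3] at h2
        have h4 := jj_step h h' h2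
        rw [← hTdef, heig, ← sub_smul] at h4
        have h5 : ((a : ℚ) - ((n + n' + 1 - (k + 1) : ℕ) : ℚ)) ≠ 0 := by
          intro h6
          have h7 : a = n + n' + 1 - (k + 1) := by exact_mod_cast sub_eq_zero.1 h6
          omega
        have h8 := Submodule.smul_mem _ (((a : ℚ) - ((n + n' + 1 - (k + 1) : ℕ) : ℚ))⁻¹) h4
        rwa [smul_smul, inv_mul_cancel₀ h5, one_smul] at h8
    have h9 := h1 (n + n' - a) (by omega)
    have h10 : n + n' + 1 - (n + n' - a) = a + 1 := by omega
    rwa [h10] at h9
  have hkill : ∀ m, m ≤ b → ∀ y ∈ jj P P' m, spec T (n + n' + 1) b * y = 0 := by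
    intro m
    induction m with
    | zero =>
      intro _ y hy
      rw [jj_zero, Submodule.mem_bot] at hy
      rw [hy, mul_zero]
    | succ m ih =>
      intro hm y hy
      have h1 := ih (by omega) _ (jj_step h h' hy)
      rw [mul_sub, ← hTdef, ← mul_assoc, hcomm, mul_smul_comm, smul_mul_assoc, ← sub_smul] at h1
      refine (smul_eq_zero.1 h1).resolve_left ?_
      intro h6
      have h7 : b = m := by exact_mod_cast sub_eq_zero.1 h6
      omega
  rw [mul_assoc]
  exact hkill (a + 1) (by omega) _ (jj_mul h h' hmem U)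

/-- the trivial system -/
noncomputable def triv (R : Type*) [Ring R] (j : ℕ) : R := if j = 0 then 1 else 0

lemma full_triv : Full (triv R) 0 where
  sys :=
    { idem := fun j => by rw [triv]; split_ifs <;> simp
      orth := fun i j hij => by
        rw [triv, triv]
        split_ifs with h1 h2
        · exact absurd (h1.trans h2.symm) hij
        all_goals simp
      sum := by simp [triv]
      zero := fun j hj => if_neg (by omega) }
  low := fun T a b hab => by rw [triv, if_neg (by omega), zero_mul, zero_mul]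

theorem full_sum {ι : Type*} (s : Finset ι) (P : ι → ℕ → R) (n : ι → ℕ)
    (h : ∀ i ∈ s, Full (P i) (n i)) :
    ∃ Q : ℕ → R, Full Q (∑ i ∈ s, n i) ∧ gop Q (∑ i ∈ s, n i) = ∑ i ∈ s, gop (P i) (n i) := by
  classical
  induction s using Finset.induction_on with
  | empty => exact ⟨triv R, by simpa using full_triv, by simp [gop, triv]⟩
  | insert a s ha ih =>
    obtain ⟨Q, hQ, hg⟩ := ih fun i hi => h i (Finset.mem_insert_of_mem hi)
    obtain ⟨Q', hQ', hg'⟩ := full_add (h a (Finset.mem_insert_self _ _)) hQ
    refine ⟨Q', ?_, ?_⟩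
    · rw [Finset.sum_insert ha]; exact hQ'
    · rw [Finset.sum_insert ha, Finset.sum_insert ha, hg', hg]

/-- The grading operator determines the system. -/
theorem Sys.unique (h : Sys Q (n + 1)) (h' : Sys Q' (n + 1)) (hg : gop Q n = gop Q' n) :
    Q = Q' := by
  have key : ∀ s t, s ≠ t → Q s * Q' t = 0 := by
    intro s t hst
    have h1 : Q s * (gop Q n * Q' t) = (s : ℚ) • (Q s * Q' t) := by
      rw [← mul_assoc, h.mul_gop, smul_mul_assoc]
    have h2 : Q s * (gop Q n * Q' t) = (t : ℚ) • (Q s * Q' t) := by
      rw [hg, h'.gop_mul, mul_smul_comm]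
    rw [h1] at h2
    have h3 : ((s : ℚ) - (t : ℚ)) • (Q s * Q' t) = 0 := by rw [sub_smul, h2, sub_self]
    refine (smul_eq_zero.1 h3).resolve_left ?_
    intro h4
    exact hst (by exact_mod_cast sub_eq_zero.1 h4)
  funext s
  by_cases hs : s < n + 1
  · have h1 : Q s = Q s * Q' s := by
      conv_lhs => rw [← mul_one (Q s), ← h'.sum, Finset.mul_sum]
      refine Finset.sum_eq_single s ?_ ?_
      · intro t _ ht
        exact key s t (Ne.symm ht)
      · intro hc
        exact absurd (Finset.mem_range.2 hs) hc
    have h2 : Q' s = Q s * Q' s := by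
      conv_lhs => rw [← one_mul (Q' s), ← h.sum, Finset.sum_mul]
      refine Finset.sum_eq_single s ?_ ?_
      · intro t _ ht
        exact key t s ht
      · intro hc
        exact absurd (Finset.mem_range.2 hs) hc
    rw [h1, ← h2]
  · rw [h.zero s (not_lt.1 hs), h'.zero s (not_lt.1 hs)]

/-! ### two-step systems -/

/-- A fully invariant idempotent. -/
structure Inv (t : R) : Prop where
  idem : t * t = t
  inv : ∀ T, T * t = t * T * t

/-- the two-step system -/
noncomputable def two (t : R) (j : ℕ) : R := if j = 0 then t else if j = 1 then 1 - t else 0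

lemma Inv.full {t : R} (h : Inv t) : Full (two t) 1 where
  sys :=
    { idem := fun j => by
        rw [two]
        split_ifs
        · exact h.idem
        · simp [sub_mul, mul_sub, h.idem]
        · simp
      orth := fun i j hij => by
        rw [two, two]
        split_ifs <;> first | omega | simp [mul_sub, sub_mul, h.idem]
      sum := by simp [Finset.sum_range_succ, two]
      zero := fun j hj => by rw [two, if_neg (by omega), if_neg (by omega)] }
  low := fun T a b hab => by
    rw [two, two]
    split_ifs <;> first | omega | simp [sub_mul, ← h.inv T]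

lemma gop_two (t : R) : gop (two t) 1 = 1 - t := by
  simp [gop, two, Finset.sum_range_succ]

lemma Full.inv_tr (h : Full P n) (j : ℕ) : Inv (tr P j) where
  idem := by
    have h1 := h.inv j 1
    rw [mul_one, one_mul] at h1
    exact h1.symm
  inv := h.inv j

end Pool.Agent.Run7.h192.Murre
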