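import Pool.Agent.Run7.h192.Murre.TDefs

/-!
# Splittings: definitions
-/

open Pool.Agent.H914 Pool.Agent.R903

universe u v w

namespace Pool.Agent.Run7.h192.Murre

/-- `T` is the identity on `gr l` for `l ≤ j`, and zero on `gr l` for `l > j`. -/
def IsTruncation {K : Type w} [Field K] {V : Type w} [AddCommGroup V] [Module K V]
    (gr : ℕ → Submodule K V) (j : ℕ) (T : V →ₗ[K] V) : Prop :=
  ∀ l, ∀ a ∈ gr l, T a = if l ≤ j then a else 0

variable {k : Type u} [Field k] {𝒱 : VarClass k} {C : ChowTheory.{u, v} 𝒱}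

/-- `t` splits the motive of `X` at level `j`: it is an idempotent in `CH^(dim X)(X × X)` which acts
as the identity on `H^l(X)` for `l ≤ j` and as zero on `H^l(X)` for `l > j`, and
`(1 - t) ∘ γ ∘ t = 0` for all `γ` in `CH^(dim X)(X × X)`. In other words `h(X) = A ⊕ B` with
`H(A) = H^(≤ j)(X)`, `H(B) = H^(> j)(X)` and `Hom(A, B) = 0`. -/
structure IsSplitting (W : WeilTheory.{u, v, w} C) (X : 𝒱.Obj) (j : ℕ) (t : C.CH (X.prod X)) :
    Prop where
  mem : IsDegreeZero C t
  idem : C.comp t t = t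
  inv : ∀ γ, IsDegreeZero C γ → C.comp t γ = C.comp (C.comp t γ) t
  proj : IsTruncation (W.gr X) j (W.act t)

end Pool.Agent.Run7.h192.Murre
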