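import Pool.Agent.R903.Murre
import Pool.Agent.R903.Tensor
import Pool.Agent.Run7.h192.Murre.Grad
import Pool.Agent.Run7.h192.Murre.TDefs
import Pool.Agent.Run7.h192.Murre.SDefs

/-!
# From truncations to decompositions
-/

set_option autoImplicit false

open CategoryTheory CategoryTheory.Limits AlgebraicGeometry Finset
open Pool.Agent.H914 Pool.Agent.H914.VarClass Pool.Agent.H914.VarClass.Obj Pool.Agent.R903

universe u v w

namespace Pool.Agent.Run7.h192.Murre

variable {k : Type u} [Field k] {𝒱 : VarClass k} {C : ChowTheory.{u, v} 𝒱}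
  {W : WeilTheory.{u, v, w} C} {X Y : 𝒱.Obj}

/-! ### degrees -/

lemma push_mem' (W : WeilTheory.{u, v, w} C) (f : X ⟶ Y) {i : ℕ} {a : W.H X}
    (ha : a ∈ W.gr X i) : W.push f a ∈ grZ (W.gr Y) (i + 2 * ((Y.dim : ℤ) - X.dim)) := by
  have key : ∀ l : ℕ, (l : ℤ) ≠ i + 2 * ((Y.dim : ℤ) - X.dim) →
      proj (W.isInternal Y) l (W.push f a) = 0 := by
    intro l hl
    apply W.nondeg
    intro c
    refine gr_induction (W.isInternal Y)
      (p := fun c => W.tr Y (proj (W.isInternal Y) l (W.push f a) * c) = 0) ?_ ?_ c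
    · intro m c hc
      by_cases hm : l + m = 2 * Y.dim
      · have h1 : W.tr Y (proj (W.isInternal Y) l (W.push f a) * c) =
            W.tr Y (W.push f a * c) := by
          have h2 : ∀ b : W.H Y, W.tr Y (proj (W.isInternal Y) l b * c) = W.tr Y (b * c) := by
            intro b
            refine gr_induction (W.isInternal Y)
              (p := fun b => W.tr Y (proj (W.isInternal Y) l b * c) = W.tr Y (b * c)) ?_ ?_ b
            · intro j b hb
              by_cases hj : j = l
              · subst hj; rw [proj_same _ hb]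
              · rw [proj_ne _ hb hj, zero_mul, map_zero,
                  W.tr_eq_zero (W.mul_mem hb hc) (by omega)]
            · intro b b' hb hb'
              rw [map_add, add_mul, add_mul, map_add, map_add, hb, hb']
          exact h2 _
        rw [h1, W.tr_push]
        apply W.tr_eq_zero (W.mul_mem ha (W.map_mem f hc))
        intro h3
        apply hl
        omega
      · exact W.tr_eq_zero (W.mul_mem (proj_mem _ _ _) hc) hm
    · intro c c' hc hc'
      rw [mul_add, map_add, hc, hc', add_zero]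
  have hsum := congrArg (fun T : Module.End W.K (W.H Y) => T (W.push f a))
    (sum_proj (W.isInternal Y) (N := 2 * Y.dim + 1) fun i hi => W.gr_eq_bot Y i (by omega))
  simp only [LinearMap.sum_apply, Module.End.one_apply] at hsum
  by_cases h0 : (i : ℤ) + 2 * ((Y.dim : ℤ) - X.dim) < 0
  · rw [grZ_of_neg h0, Submodule.mem_bot, ← hsum]
    exact Finset.sum_eq_zero fun l _ => key l (by omega)
  · obtain ⟨m, hm⟩ := Int.eq_ofNat_of_zero_le (not_lt.1 h0)
    rw [hm]
    change _ ∈ grZ (W.gr Y) (m : ℤ)
    rw [grZ_natCast]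
    by_cases hm2 : m < 2 * Y.dim + 1
    · rw [Finset.sum_eq_single m] at hsum
      · rw [← hsum]; exact proj_mem _ _ _
      · intro l _ hl
        exact key l (by omega)
      · intro hc
        exact absurd (Finset.mem_range.2 hm2) hc
    · rw [← hsum]
      refine Submodule.sum_mem _ fun l hl => ?_
      rw [Finset.mem_range] at hl
      rw [key l (by omega)]
      exact Submodule.zero_mem _

lemma act_shift (W : WeilTheory.{u, v, w} C) {p : ℕ} {γ : C.CH (X.prod Y)}
    (hγ : γ ∈ C.gr (X.prod Y) p) {l : ℕ} {a : W.H X} (ha : a ∈ W.gr X l) :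
    W.act γ a ∈ grZ (W.gr Y) (l + 2 * ((p : ℤ) - X.dim)) := by
  have h1 := push_mem' W (snd X Y) (W.mul_mem (W.cl_mem hγ) (W.map_mem (fst X Y) ha))
  rw [WeilTheory.act_apply]
  convert h1 using 2
  rw [dim_prod]
  push_cast
  ring

lemma act_mem0 (W : WeilTheory.{u, v, w} C) {γ : C.CH (X.prod X)}
    (hγ : γ ∈ C.gr (X.prod X) X.dim) {l : ℕ} {a : W.H X} (ha : a ∈ W.gr X l) :
    W.act γ a ∈ W.gr X l := by
  have h1 := act_shift W hγ ha
  rwa [sub_self, mul_zero, add_zero, grZ_natCast] at h1

/-! ### the ring of correspondences of degree zero -/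

lemma comp_mem1 {α β : C.CH (X.prod X)} (hα : α ∈ C.gr (X.prod X) X.dim)
    (hβ : β ∈ C.gr (X.prod X) X.dim) : C.comp α β ∈ C.gr (X.prod X) X.dim :=
  C.comp_mem hα hβ rfl

/-- The ring of correspondences of degree zero. -/
noncomputable def R0 (C : ChowTheory.{u, v} 𝒱) (X : 𝒱.Obj) : Subalgebra ℚ (CorrRing C X) where
  carrier := {a | (CorrRing.of C X).symm a ∈ C.gr (X.prod X) X.dim}
  mul_mem' := fun {a b} ha hb => comp_mem1 (α := (CorrRing.of C X).symm b)
    (β := (CorrRing.of C X).symm a) hb ha
  add_mem' := fun {a b} ha hb => by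
    simp only [Set.mem_setOf_eq, map_add] at *
    exact Submodule.add_mem _ ha hb
  algebraMap_mem' := fun r => by
    have h1 : algebraMap ℚ (CorrRing C X) r = CorrRing.of C X (r • C.diagC X) := by
      rw [Algebra.algebraMap_eq_smul_one, map_smul]; rfl
    simp only [Set.mem_setOf_eq, h1, LinearEquiv.symm_apply_apply]
    exact Submodule.smul_mem _ _ (C.diagC_mem X)

/-- a correspondence of degree zero as an element of the ring -/
noncomputable def elt (γ : C.CH (X.prod X)) (h : γ ∈ C.gr (X.prod X) X.dim) : R0 C X :=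
  ⟨CorrRing.of C X γ, h⟩

/-- the underlying correspondence -/
noncomputable def ud : R0 C X →ₗ[ℚ] C.CH (X.prod X) :=
  (CorrRing.of C X).symm.toLinearMap ∘ₗ (R0 C X).val.toLinearMap

lemma ud_mem (a : R0 C X) : ud a ∈ C.gr (X.prod X) X.dim := a.2
lemma ud_elt {γ : C.CH (X.prod X)} (h : γ ∈ C.gr (X.prod X) X.dim) : ud (elt γ h) = γ := rfl
lemma ud_mul (a b : R0 C X) : ud (a * b) = C.comp (ud b) (ud a) := rfl
lemma ud_one : ud (1 : R0 C X) = C.diagC X := rfl
lemma ud_inj {a b : R0 C X} (h : ud a = ud b) : a = b := Subtype.ext h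

/-- the transpose -/
noncomputable def tp : R0 C X →ₗ[ℚ] R0 C X where
  toFun a := elt (C.transp (ud a)) (C.transp_mem (ud_mem a))
  map_add' a b := ud_inj (by
    rw [ud_elt, map_add, map_add, ud_elt, ud_elt, ChowTheory.transp, map_add]; rfl)
  map_smul' q a := ud_inj (by
    rw [ud_elt, map_smul, RingHom.id_apply, map_smul, ud_elt, ChowTheory.transp, map_smul]; rfl)

lemma ud_tp (a : R0 C X) : ud (tp a) = C.transp (ud a) := rfl

lemma tp_mul (a b : R0 C X) : tp (a * b) = tp b * tp a := by
  apply ud_inj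
  rw [ud_tp, ud_mul, ud_mul, ud_tp, ud_tp, C.comp_transp]

lemma tp_one : tp (1 : R0 C X) = 1 := by
  apply ud_inj
  rw [ud_tp, ud_one, C.transp_diagC]

lemma transp_transp (γ : C.CH (X.prod Y)) : C.transp (C.transp γ) = γ := by
  rw [ChowTheory.transp, ChowTheory.transp, ← C.pull_comp]
  have : swap X Y ≫ swap Y X = 𝟙 _ := by apply hom_ext_prod <;> simp
  rw [this, C.pull_id]

lemma tp_tp (a : R0 C X) : tp (tp a) = a := by
  apply ud_inj
  rw [ud_tp, ud_tp, transp_transp]

/-- the action on cohomology -/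
noncomputable def ac (W : WeilTheory.{u, v, w} C) (a : R0 C X) (x : W.H X) : W.H X :=
  W.act (ud a) x

lemma ac_mul (a b : R0 C X) (x : W.H X) : ac W (a * b) x = ac W a (ac W b x) := by
  rw [ac, ud_mul, W.act_comp _ (ud_mem a)]; rfl

lemma ac_one (x : W.H X) : ac W (1 : R0 C X) x = x := by
  rw [ac, ud_one, W.act_diagC]

lemma ac_smul (q : ℚ) (a : R0 C X) (x : W.H X) : ac W (q • a) x = (q : W.K) • ac W a x := by
  rw [ac, map_smul, W.act_smul, LinearMap.smul_apply]; rfl

lemma ac_sub (a b : R0 C X) (x : W.H X) : ac W (a - b) x = ac W a x - ac W b x := by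
  rw [ac, map_sub, W.act_sub, LinearMap.sub_apply]; rfl

lemma ac_sum {ι : Type*} (s : Finset ι) (a : ι → R0 C X) (x : W.H X) :
    ac W (∑ i ∈ s, a i) x = ∑ i ∈ s, ac W (a i) x := by
  rw [ac, map_sum, W.act_sum, LinearMap.sum_apply]; rfl

lemma ac_lin (c : W.K) (a : R0 C X) (x : W.H X) : ac W a (c • x) = c • ac W a x := by
  rw [ac, map_smul]; rfl

lemma ac_zero_right (a : R0 C X) : ac W a (0 : W.H X) = 0 := by rw [ac, map_zero]

lemma ac_mem (a : R0 C X) {l : ℕ} {x : W.H X} (hx : x ∈ W.gr X l) : ac W a x ∈ W.gr X l :=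
  act_mem0 W (ud_mem a) hx

/-- The spectral projectors on an eigenvector. -/
lemma ac_spec {Q : ℕ → R0 C X} {n : ℕ} (h : Sys Q (n + 1)) {x : W.H X} {c : ℕ}
    (hx : ac W (gop Q n) x = (c : W.K) • x) (s : ℕ) :
    ac W (Q s) x = if s = c then x else 0 := by
  have key : ∀ s, s ≠ c → ac W (Q s) x = 0 := by
    intro s hs
    have h1 : ac W (Q s * gop Q n) x = (c : W.K) • ac W (Q s) x := by
      rw [ac_mul, hx, ac_lin]
    rw [h.mul_gop, ac_smul] at h1
    have h2 : ((((s : ℚ) : W.K)) - (c : W.K)) • ac W (Q s) x = 0 := by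
      rw [sub_smul, h1, sub_self]
    refine (smul_eq_zero.1 h2).resolve_left ?_
    intro h3
    rw [Rat.cast_natCast] at h3
    exact hs (by exact_mod_cast sub_eq_zero.1 h3)
  split_ifs with hs
  · have h1 : ac W (∑ i ∈ range (n + 1), Q i) x = x := by rw [h.sum, ac_one]
    rw [ac_sum] at h1
    by_cases hsn : s < n + 1
    · rw [Finset.sum_eq_single s] at h1
      · exact h1
      · intro b _ hb
        exact key b (by omega)
      · intro hc
        exact absurd (Finset.mem_range.2 hsn) hc
    · have h2 : x = 0 := by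
        rw [← h1]
        refine Finset.sum_eq_zero fun i hi => ?_
        rw [Finset.mem_range] at hi
        exact key i (by omega)
      rw [h2, ac_zero_right]
  · exact key s hs

/-! ### splittings -/

lemma IsSplitting.toInv {j : ℕ} {t : C.CH (X.prod X)} (h : IsSplitting W X j t) :
    Inv (elt t h.mem) where
  idem := ud_inj h.idem
  inv T := by
    apply ud_inj
    have h1 := h.inv (ud T) (ud_mem T)
    rw [ud_mul, ud_mul, ud_mul, ud_elt, h1, C.comp_assoc]

lemma isSplitting_of {j : ℕ} {t : R0 C X} (h : Inv t)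
    (hp : ∀ l, ∀ a ∈ W.gr X l, ac W t a = if l ≤ j then a else 0) : IsSplitting W X j (ud t) where
  mem := ud_mem t
  idem := by rw [← ud_mul, h.idem]
  inv γ hγ := by
    have h1 := congrArg ud (h.inv (elt γ hγ))
    rw [ud_mul, ud_mul, ud_mul, ud_elt, ← C.comp_assoc] at h1
    exact h1
  proj := hp

lemma inv_conj {R : Type*} [Ring R] {t a b : R} (h : Inv t) (hab : a * b = 1) (hba : b * a = 1) :
    Inv (a * t * b) where
  idem := by
    calc a * t * b * (a * t * b) = a * (t * (b * a) * t) * b := by simp only [mul_assoc]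
      _ = a * t * b := by rw [hba, mul_one, h.idem]
  inv T := by
    have h1 := h.inv (b * T * a)
    calc T * (a * t * b) = (a * b) * T * (a * t * b) := by rw [hab, one_mul]
      _ = a * (b * T * a * t) * b := by simp only [mul_assoc]
      _ = a * (t * (b * T * a) * t) * b := by rw [h1]
      _ = _ := by simp only [mul_assoc]

lemma inv_dual {t : R0 C X} (h : Inv t) : Inv (1 - tp t) where
  idem := by
    have h1 : tp t * tp t = tp t := by rw [← tp_mul, h.idem]
    simp [mul_sub, sub_mul, h1]
  inv T := by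
    have h1 := congrArg tp (h.inv (tp T))
    rw [tp_mul, tp_mul, tp_mul, tp_tp] at h1
    have h2 : tp t * T * (1 - tp t) = 0 := by
      rw [mul_sub, mul_one, mul_assoc (tp t) T (tp t), ← h1, sub_self]
    calc T * (1 - tp t) = (1 - tp t) * T * (1 - tp t) + tp t * T * (1 - tp t) := by
          simp only [sub_mul, one_mul, mul_sub, mul_one]; abel
      _ = _ := by rw [h2, add_zero]

lemma ac_tp {t : R0 C X} {c : ℕ → W.K}
    (h : ∀ l, ∀ a ∈ W.gr X l, ac W t a = c l • a) {j : ℕ} {a : W.H X} (ha : a ∈ W.gr X j) :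
    ac W (tp t) a = c (2 * X.dim - j) • a := by
  rw [ac, ud_tp, W.act_transp]
  exact W.coact_scal (ud_mem t) c h ha

/-- The dual splitting. -/
lemma dual_proj {t : R0 C X} {j : ℕ} (hj : j < 2 * X.dim)
    (hp : ∀ l, ∀ a ∈ W.gr X l, ac W t a = if l ≤ j then a else 0) (l : ℕ) (a : W.H X)
    (ha : a ∈ W.gr X l) :
    ac W (1 - tp t) a = if l ≤ 2 * X.dim - 1 - j then a else 0 := by
  by_cases hl : 2 * X.dim < l
  · rw [W.gr_eq_bot X l hl, Submodule.mem_bot] at ha
    rw [ha, ac_zero_right]
    simp
  rw [ac_sub, ac_one, ac_tp (c := fun l => if l ≤ j then 1 else 0) (fun l a ha => ?_) ha]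
  · split_ifs <;> first | omega | simp
  · rw [hp l a ha]; split_ifs <;> simp

/-! ### invariant splittings -/

section Group

variable {G : Type*} [Group G] [Fintype G] {g : G → C.CH (X.prod X)}

lemma commute_of (hg : IsIsometryGroup C X g) {Q : ℕ → R0 C X} {n : ℕ} (hQ : Sys Q (n + 1))
    (hT : ∀ a, elt (g a) (hg.mem a) * gop Q n = gop Q n * elt (g a) (hg.mem a)) (s : ℕ) :
    Invariant C g (ud (Q s)) := by
  intro a
  set u := elt (g a) (hg.mem a) with hu
  set v := elt (g a⁻¹) (hg.mem a⁻¹) with hv
  have huv : u * v = 1 := by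
    apply ud_inj
    rw [ud_mul, hu, hv, ud_elt, ud_elt, hg.mul, inv_mul_cancel, hg.one, ud_one]
  have hvu : v * u = 1 := by
    apply ud_inj
    rw [ud_mul, hu, hv, ud_elt, ud_elt, hg.mul, mul_inv_cancel, hg.one, ud_one]
  have hQ' : Sys (fun s => u * Q s * v) (n + 1) :=
    { idem := fun j => by
        calc u * Q j * v * (u * Q j * v) = u * (Q j * (v * u) * Q j) * v := by
              simp only [mul_assoc]
          _ = _ := by rw [hvu, mul_one, hQ.idem]
      orth := fun i j hij => by
        calc u * Q i * v * (u * Q j * v) = u * (Q i * (v * u) * Q j) * v := by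
              simp only [mul_assoc]
          _ = _ := by rw [hvu, mul_one, hQ.orth i j hij, mul_zero, zero_mul]
      sum := by rw [← Finset.sum_mul, ← Finset.mul_sum, hQ.sum, mul_one, huv]
      zero := fun j hj => by rw [hQ.zero j hj, mul_zero, zero_mul] }
  have hgop : gop (fun s => u * Q s * v) n = gop Q n := by
    have h1 : gop (fun s => u * Q s * v) n = u * gop Q n * v := by
      rw [gop, gop, Finset.mul_sum, Finset.sum_mul]
      refine Finset.sum_congr rfl fun j _ => ?_
      rw [mul_smul_comm, smul_mul_assoc]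
    rw [h1, hT a, mul_assoc, huv, mul_one]
  have h1 := congrFun (hQ'.unique hQ hgop) s
  have h2 : u * Q s = Q s * u := by
    have h3 : u * Q s * v * u = Q s * u := by rw [h1]
    rwa [mul_assoc, hvu, mul_one] at h3
  have h3 := congrArg ud h2
  rw [ud_mul, ud_mul, hu, ud_elt] at h3
  exact h3

/-- A splitting gives an invariant splitting. -/
theorem exists_invariant (hg : IsIsometryGroup C X g) {j : ℕ}
    (h : ∃ t, IsSplitting W X j t) : ∃ t, IsSplitting W X j t ∧ Invariant C g t := by
  obtain ⟨t0, ht0⟩ := h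
  set t := elt t0 ht0.mem with ht
  have hinv : Inv t := ht0.toInv
  set u : G → R0 C X := fun a => elt (g a) (hg.mem a) with hu
  have hmul : ∀ a b, u a * u b = u (b * a) := by
    intro a b
    apply ud_inj
    rw [ud_mul, hu]
    exact hg.mul b a
  have hone : u 1 = 1 := ud_inj hg.one
  have h1 : ∀ a, u a * u a⁻¹ = 1 := fun a => by rw [hmul, inv_mul_cancel, hone]
  have h2 : ∀ a, u a⁻¹ * u a = 1 := fun a => by rw [hmul, mul_inv_cancel, hone]
  obtain ⟨Q, hQ, hgQ⟩ := full_sum (Finset.univ : Finset G) (fun a => two (u a * t * u a⁻¹))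
    (fun _ => 1) fun a _ => (inv_conj hinv (h1 a) (h2 a)).full
  simp only [gop_two, Finset.sum_const, Finset.card_univ, smul_eq_mul, mul_one] at hQ hgQ
  refine ⟨ud (Q 0), isSplitting_of ?_ ?_, ?_⟩
  · have h3 := hQ.inv_tr 0
    rwa [tr, Finset.sum_range_one] at h3
  · intro l x hx
    have h3 : ac W (gop Q (Fintype.card G)) x =
        ((if l ≤ j then 0 else Fintype.card G : ℕ) : W.K) • x := by
      rw [hgQ, ac_sum]
      have h4 : ∀ a, ac W (1 - u a * t * u a⁻¹) x = if l ≤ j then 0 else x := by
        intro a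
        rw [ac_sub, ac_one, ac_mul, ac_mul]
        have h5 : ac W t (ac W (u a⁻¹) x) = if l ≤ j then ac W (u a⁻¹) x else 0 :=
          ht0.proj l _ (ac_mem _ hx)
        rw [h5]
        split_ifs
        · rw [← ac_mul, h1, ac_one, sub_self]
        · rw [ac_zero_right, sub_zero]
      rw [Finset.sum_congr rfl fun a _ => h4 a]
      split_ifs
      · simp
      · rw [Finset.sum_const, Finset.card_univ, Nat.cast_smul_eq_nsmul]
    rw [ac_spec hQ.sys h3 0]
    have h4 : Fintype.card G ≠ 0 := Fintype.card_ne_zero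
    split_ifs <;> first | rfl | omega
  · refine commute_of hg hQ.sys ?_ 0
    intro a
    rw [hgQ]
    change u a * _ = _ * u a
    rw [Finset.mul_sum, Finset.sum_mul]
    have h3 : ∀ b, u a * (1 - u b * t * u b⁻¹) = (1 - u (b * a) * t * u (b * a)⁻¹) * u a := by
      intro b
      have h4 : u (b * a)⁻¹ * u a = u b⁻¹ := by
        rw [hmul]
        congr 1
        group
      rw [mul_sub, sub_mul, mul_one, one_mul, ← mul_assoc, ← mul_assoc, hmul, mul_assoc _ _ (u a),
        h4]
    rw [Finset.sum_congr rfl fun b _ => h3 b]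
    exact Fintype.sum_equiv (Equiv.mulRight a) _ _ fun b => rfl

/-- **Splittings at all levels below the middle give a self-dual triangular decomposition, invariant
under a given finite group.** -/
theorem exists_selfDual (hg : IsIsometryGroup C X g)
    (h : ∀ j < X.dim, ∃ t, IsSplitting W X j t) :
    ∃ π : ℕ → C.CH (X.prod X), W.IsCK X π ∧ C.IsTriangular π ∧ SelfDual C π ∧
      ∀ j, Invariant C g (π j) := by
  have h1 : ∀ j, ∃ t : R0 C X, j < X.dim → Inv t ∧
      (∀ l, ∀ a ∈ W.gr X l, ac W t a = if l ≤ j then a else 0) ∧ Invariant C g (ud t) := by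
    intro j
    by_cases hj : j < X.dim
    · obtain ⟨t, ht, hti⟩ := exists_invariant hg (h j hj)
      exact ⟨elt t ht.mem, fun _ => ⟨ht.toInv, ht.proj, hti⟩⟩
    · exact ⟨0, fun h => absurd h hj⟩
  choose t0 ht0 using h1
  set t : ℕ → R0 C X := fun j => if j < X.dim then t0 j else 1 - tp (t0 (2 * X.dim - 1 - j))
    with ht
  set u : G → R0 C X := fun a => elt (g a) (hg.mem a) with hu
  have hinv : ∀ j < 2 * X.dim, Inv (t j) := by
    intro j hj
    simp only [ht]
    split_ifs with hj'
    · exact (ht0 j hj').1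
    · exact inv_dual (ht0 _ (by omega)).1
  have hproj : ∀ j < 2 * X.dim, ∀ l, ∀ a ∈ W.gr X l, ac W (t j) a = if l ≤ j then a else 0 := by
    intro j hj l a ha
    simp only [ht]
    split_ifs with hj' h2 h2
    · rw [(ht0 j hj').2.1 l a ha, if_pos h2]
    · rw [(ht0 j hj').2.1 l a ha, if_neg h2]
    · rw [dual_proj (by omega) (ht0 (2 * X.dim - 1 - j) (by omega)).2.1 l a ha, if_pos (by omega)]
    · rw [dual_proj (by omega) (ht0 (2 * X.dim - 1 - j) (by omega)).2.1 l a ha, if_neg (by omega)]
  have hcomm0 : ∀ j < X.dim, ∀ a, u a * t0 j = t0 j * u a := by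
    intro j hj a
    apply ud_inj
    rw [ud_mul, ud_mul]
    exact (ht0 j hj).2.2 a
  have htpu : ∀ a, tp (u a) = u a⁻¹ := fun a => ud_inj (hg.transp a)
  have hcomm : ∀ j < 2 * X.dim, ∀ a, u a * t j = t j * u a := by
    intro j hj a
    simp only [ht]
    split_ifs with hj'
    · exact hcomm0 j hj' a
    · have h2 := congrArg tp (hcomm0 (2 * X.dim - 1 - j) (by omega) a⁻¹)
      rw [tp_mul, tp_mul, htpu, inv_inv] at h2
      rw [mul_sub, sub_mul, mul_one, one_mul, h2]
  have hdual : ∀ j < 2 * X.dim, 1 - tp (t j) = t (2 * X.dim - 1 - j) := by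
    intro j hj
    simp only [ht]
    by_cases hj' : j < X.dim
    · rw [if_pos hj', if_neg (by omega)]
      congr 3
      omega
    · rw [if_neg hj', if_pos (by omega), map_sub, tp_one, tp_tp]
      abel
  obtain ⟨Q, hQ, hgQ⟩ := full_sum (range (2 * X.dim)) (fun j => two (t j)) (fun _ => 1)
    fun j hj => (hinv j (Finset.mem_range.1 hj)).full
  simp only [gop_two, Finset.sum_const, Finset.card_range, smul_eq_mul, mul_one] at hQ hgQ
  have htT : tp (gop Q (2 * X.dim)) = (2 * X.dim : ℕ) • (1 : R0 C X) - gop Q (2 * X.dim) := by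
    rw [hgQ, map_sum]
    have h2 : ∀ j ∈ range (2 * X.dim), tp (1 - t j) = t (2 * X.dim - 1 - j) := by
      intro j hj
      rw [← hdual j (Finset.mem_range.1 hj), map_sub, tp_one]
    rw [Finset.sum_congr rfl h2, Finset.sum_range_reflect t (2 * X.dim), Finset.sum_sub_distrib,
      Finset.sum_const, Finset.card_range]
    abel
  -- self-duality
  have hdualQ : ∀ s ≤ 2 * X.dim, tp (Q s) = Q (2 * X.dim - s) := by
    have hQ' : Sys (fun s => if s ≤ 2 * X.dim then tp (Q (2 * X.dim - s)) else 0)
        (2 * X.dim + 1) :=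
      { idem := fun j => by
          split_ifs
          · rw [← tp_mul, hQ.sys.idem]
          · rw [mul_zero]
        orth := fun i j hij => by
          split_ifs
          · rw [← tp_mul, hQ.sys.orth _ _ (by omega), map_zero]
          · rw [mul_zero]
          · rw [zero_mul]
          · rw [mul_zero]
        sum := by
          have h2 : ∀ j ∈ range (2 * X.dim + 1),
              (if j ≤ 2 * X.dim then tp (Q (2 * X.dim - j)) else 0) =
                (fun j => tp (Q j)) (2 * X.dim + 1 - 1 - j) := by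
            intro j hj
            rw [Finset.mem_range] at hj
            rw [if_pos (by omega), Nat.add_sub_cancel]
          rw [Finset.sum_congr rfl h2,
            Finset.sum_range_reflect (fun j => tp (Q j)) (2 * X.dim + 1), ← map_sum, hQ.sys.sum,
            tp_one]
        zero := fun j hj => if_neg (by omega) }
    have hgop : gop (fun s => if s ≤ 2 * X.dim then tp (Q (2 * X.dim - s)) else 0) (2 * X.dim) =
        gop Q (2 * X.dim) := by
      have h2 : gop (fun s => if s ≤ 2 * X.dim then tp (Q (2 * X.dim - s)) else 0) (2 * X.dim) =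
          ∑ j ∈ range (2 * X.dim + 1), (((2 * X.dim : ℕ) : ℚ) - (j : ℚ)) • tp (Q j) := by
        rw [gop]
        have h3 : ∀ j ∈ range (2 * X.dim + 1),
            (j : ℚ) • (if j ≤ 2 * X.dim then tp (Q (2 * X.dim - j)) else 0) =
              (fun j : ℕ => (((2 * X.dim : ℕ) : ℚ) - (j : ℚ)) • tp (Q j))
                (2 * X.dim + 1 - 1 - j) := by
          intro j hj
          rw [Finset.mem_range] at hj
          dsimp only
          rw [if_pos (by omega), Nat.add_sub_cancel, Nat.cast_sub (by omega)]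
          congr 1
          ring
        rw [Finset.sum_congr rfl h3, Finset.sum_range_reflect
          (fun j : ℕ => (((2 * X.dim : ℕ) : ℚ) - (j : ℚ)) • tp (Q j)) (2 * X.dim + 1)]
      rw [h2]
      simp only [sub_smul]
      rw [Finset.sum_sub_distrib, ← Finset.smul_sum, ← map_sum, hQ.sys.sum, tp_one]
      have h4 : ∑ j ∈ range (2 * X.dim + 1), (j : ℚ) • tp (Q j) = tp (gop Q (2 * X.dim)) := by
        rw [gop, map_sum]
        exact Finset.sum_congr rfl fun j _ => (map_smul _ _ _).symm
      rw [h4, htT, Nat.cast_smul_eq_nsmul]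
      abel
    intro s hs
    have h2 := congrFun (hQ'.unique hQ.sys hgop) (2 * X.dim - s)
    rw [if_pos (Nat.sub_le _ _), Nat.sub_sub_self hs] at h2
    exact h2
  refine ⟨fun j => ud (Q j), ?_, ?_, ?_, ?_⟩
  · refine ⟨fun j => ud_mem _, fun j => ?_, fun i j hij => ?_, ?_, fun j => ?_⟩
    · rw [← ud_mul, hQ.sys.idem]
    · rw [← ud_mul, hQ.sys.orth j i (Ne.symm hij), map_zero]
    · rw [← map_sum, hQ.sys.sum, ud_one]
    · intro l a ha
      by_cases hl : 2 * X.dim < l
      · rw [W.gr_eq_bot X l hl, Submodule.mem_bot] at ha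
        rw [ha, map_zero, ite_self]
      have h2 : ac W (gop Q (2 * X.dim)) a = (l : W.K) • a := by
        rw [hgQ, ac_sum]
        have h3 : ∀ j ∈ range (2 * X.dim), ac W (1 - t j) a = if j < l then a else 0 := by
          intro j hj
          rw [ac_sub, ac_one, hproj j (Finset.mem_range.1 hj) l a ha]
          split_ifs <;> first | omega | simp
        rw [Finset.sum_congr rfl h3, ← Finset.sum_filter]
        have h4 : (range (2 * X.dim)).filter (fun j => j < l) = range l := by
          ext j
          simp only [Finset.mem_filter, Finset.mem_range]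
          omega
        rw [h4, Finset.sum_const, Finset.card_range, Nat.cast_smul_eq_nsmul]
      have h5 := ac_spec hQ.sys h2 j
      rw [ac] at h5
      rw [h5]
      split_ifs <;> first | rfl | omega
  · intro a b hab γ hγ
    have h2 := congrArg ud (hQ.low (elt γ hγ) a b hab)
    rw [ud_mul, ud_mul, ud_elt, map_zero, ← C.comp_assoc] at h2
    exact h2
  · intro j hj
    change C.transp (ud (Q j)) = _
    rw [← ud_tp, hdualQ j hj]
  · intro j
    refine commute_of hg hQ.sys ?_ j
    intro a
    rw [hgQ, Finset.mul_sum, Finset.sum_mul]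
    refine Finset.sum_congr rfl fun j hj => ?_
    rw [mul_sub, sub_mul, mul_one, one_mul]
    congr 1
    exact hcomm j (Finset.mem_range.1 hj) a

end Group

/-- The truncations of a triangular decomposition. -/
theorem splitting_of_triangular {π : ℕ → C.CH (X.prod X)} (h : W.IsCK X π)
    (hT : C.IsTriangular π) (j : ℕ) : ∃ t, IsSplitting W X j t := by
  have hF : Full (fun s => elt (π s) (h.mem s)) (2 * X.dim) :=
    { sys :=
        { idem := fun j => ud_inj (by rw [ud_mul, ud_elt, h.idem])
          orth := fun i j hij => ud_inj (by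
            rw [ud_mul, ud_elt, ud_elt, h.orth j i (Ne.symm hij), map_zero])
          sum := ud_inj (by
            rw [map_sum, ud_one, ← h.sum]
            rfl)
          zero := fun j hj => ud_inj (by rw [ud_elt, h.eq_zero (by omega), map_zero]) }
      low := fun T a b hab => ud_inj (by
        rw [ud_mul, ud_mul, ud_elt, ud_elt, map_zero, ← C.comp_assoc]
        exact hT a b hab _ (ud_mem T)) }
  refine ⟨ud (tr (fun s => elt (π s) (h.mem s)) j), isSplitting_of (hF.inv_tr j) ?_⟩
  intro l a ha
  rw [tr, ac_sum]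
  have h1 : ∀ s, ac W (elt (π s) (h.mem s)) a = if l = s then a else 0 := fun s => h.proj s l a ha
  rw [Finset.sum_congr rfl fun s _ => h1 s, Finset.sum_ite_eq]
  simp only [Finset.mem_range, Nat.lt_succ_iff]

end Pool.Agent.Run7.h192.Murre
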